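import Mathlib

/-!
# Unit-area triangles without parallels: the ring `ℤ[2^{1/d}]`
-/

set_option autoImplicit false

namespace Pool.Agent.helper43.UT

open Polynomial

/-- The real number `2^{1/d}`. -/
noncomputable def om (d : ℕ) : ℝ := (2 : ℝ) ^ ((1 : ℝ) / d)

theorem om_pos (d : ℕ) : 0 < om d := by unfold om; positivity

theorem om_pow {d : ℕ} (hd : d ≠ 0) : om d ^ d = 2 := by
  unfold om
  have hd' : (d : ℝ) ≠ 0 := by exact_mod_cast hd
  rw [← Real.rpow_natCast, ← Real.rpow_mul (by norm_num), one_div, inv_mul_cancel₀ hd',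
    Real.rpow_one]

theorem irr_int {d : ℕ} (hd : d ≠ 0) : Irreducible (X ^ d - C (2 : ℤ) : ℤ[X]) := by
  have hm : (X ^ d - C (2 : ℤ) : ℤ[X]).Monic := monic_X_pow_sub_C 2 hd
  have hdeg : (X ^ d - C (2 : ℤ) : ℤ[X]).natDegree = d := natDegree_X_pow_sub_C
  have hP : (Ideal.span {(2 : ℤ)}).IsPrime := by
    rw [Ideal.span_singleton_prime (by norm_num)]
    exact Int.prime_two
  refine irreducible_of_eisenstein_criterion hP ?_ ?_ ?_ ?_ hm.isPrimitive
  · rw [hm.leadingCoeff, Ideal.mem_span_singleton]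
    norm_num
  · intro n hn
    rw [Ideal.mem_span_singleton]
    have hn' : n < d := by
      have := hn
      rw [degree_X_pow_sub_C (Nat.pos_of_ne_zero hd)] at this
      exact_mod_cast this
    rw [coeff_sub, coeff_X_pow, if_neg (ne_of_lt hn'), coeff_C]
    split <;> simp
  · rw [degree_X_pow_sub_C (Nat.pos_of_ne_zero hd)]
    exact_mod_cast Nat.pos_of_ne_zero hd
  · rw [coeff_sub, coeff_X_pow, if_neg (fun h => hd h.symm), coeff_C, if_pos rfl, zero_sub,
      Ideal.span_singleton_pow, Ideal.mem_span_singleton]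
    norm_num

theorem irr_rat {d : ℕ} (hd : d ≠ 0) : Irreducible (X ^ d - C (2 : ℚ) : ℚ[X]) := by
  have h := (Monic.irreducible_iff_irreducible_map_fraction_map (K := ℚ)
    (monic_X_pow_sub_C (2 : ℤ) hd)).1 (irr_int hd)
  have h2 : (algebraMap ℤ ℚ) 2 = 2 := by simp
  rw [Polynomial.map_sub, Polynomial.map_pow, map_X, map_C, h2] at h
  exact h

theorem indep {d : ℕ} (hd : d ≠ 0) {p : ℤ[X]} (hp : p.natDegree < d)
    (h0 : aeval (om d) p = 0) : p = 0 := by
  set q : ℚ[X] := p.map (algebraMap ℤ ℚ) with hq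
  have hq0 : aeval (om d) q = 0 := by
    rw [hq, aeval_map_algebraMap, h0]
  have hmin : minpoly ℚ (om d) = X ^ d - C (2 : ℚ) := by
    symm
    refine minpoly.eq_of_irreducible_of_monic (irr_rat hd) ?_ (monic_X_pow_sub_C 2 hd)
    simp [om_pow hd]
  have hdvd : X ^ d - C (2 : ℚ) ∣ q := hmin ▸ minpoly.dvd ℚ (om d) hq0
  have hq00 : q = 0 := by
    by_contra hne
    have h1 := natDegree_le_of_dvd hdvd hne
    rw [natDegree_X_pow_sub_C] at h1
    have h2 : q.natDegree ≤ p.natDegree := natDegree_map_le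
    omega
  exact (Polynomial.map_eq_zero_iff (RingHom.injective_int (algebraMap ℤ ℚ))).1 hq00

/-- The value of a coefficient vector. -/
noncomputable def ev {d : ℕ} (u : Fin d → ℕ) : ℝ := ∑ i : Fin d, (u i : ℝ) * om d ^ (i : ℕ)

/-- The weighted value of a coefficient vector. -/
noncomputable def Dv {d : ℕ} (u : Fin d → ℕ) : ℝ :=
  ∑ i : Fin d, ((i : ℕ) : ℝ) * (u i : ℝ) * om d ^ (i : ℕ)

theorem ev_inj {d : ℕ} (hd : d ≠ 0) {u v : Fin d → ℕ} (h : ev u = ev v) : u = v := by
  set p : ℤ[X] := ∑ i : Fin d, monomial (i : ℕ) ((u i : ℤ) - (v i : ℤ)) with hp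
  have hdeg : p.natDegree < d := by
    have : p.natDegree ≤ d - 1 := by
      rw [hp]
      refine natDegree_sum_le_of_forall_le _ _ (fun i _ => ?_)
      exact (natDegree_monomial_le _).trans (by have := i.2; omega)
    omega
  have h0 : aeval (om d) p = 0 := by
    rw [hp, map_sum]
    have : ∀ i : Fin d, aeval (om d) (monomial (i : ℕ) ((u i : ℤ) - (v i : ℤ)))
        = (u i : ℝ) * om d ^ (i : ℕ) - (v i : ℝ) * om d ^ (i : ℕ) := by
      intro i
      rw [aeval_monomial]
      simp [sub_mul]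
    rw [Finset.sum_congr rfl (fun i _ => this i), Finset.sum_sub_distrib]
    unfold ev at h
    rw [h, sub_self]
  have hp0 := indep hd hdeg h0
  funext j
  have hc : p.coeff (j : ℕ) = (u j : ℤ) - (v j : ℤ) := by
    rw [hp, finsetSum_coeff]
    rw [Finset.sum_eq_single j]
    · simp [coeff_monomial]
    · intro i _ hij
      rw [coeff_monomial, if_neg]
      exact fun h => hij (Fin.ext h)
    · simp
  rw [hp0, coeff_zero] at hc
  omega

/-- Reduction of a polynomial modulo `X^d - 2`. -/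
def red (d : ℕ) (p : ℕ[X]) : Fin d → ℕ := fun i => p.coeff i + 2 * p.coeff (d + i)

/-- The coefficient vector. -/
def vec (d : ℕ) (p : ℕ[X]) : Fin d → ℕ := fun i => p.coeff i

theorem ev_red {d : ℕ} (hd : d ≠ 0) {p : ℕ[X]} (hp : p.natDegree < 2 * d) :
    ev (red d p) = aeval (om d) p := by
  rw [aeval_eq_sum_range' hp, two_mul, Finset.sum_range_add]
  unfold ev red
  rw [Fin.sum_univ_eq_sum_range (fun i => ((p.coeff i + 2 * p.coeff (d + i) : ℕ) : ℝ) * om d ^ i) d,
    ← Finset.sum_add_distrib]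
  refine Finset.sum_congr rfl (fun i _ => ?_)
  rw [pow_add, om_pow hd, nsmul_eq_mul, nsmul_eq_mul]
  push_cast
  ring

theorem ev_vec {d : ℕ} {p : ℕ[X]} (hp : p.natDegree < d) : ev (vec d p) = aeval (om d) p := by
  rw [aeval_eq_sum_range' hp]
  unfold ev vec
  rw [Fin.sum_univ_eq_sum_range (fun i => ((p.coeff i : ℕ) : ℝ) * om d ^ i) d]
  refine Finset.sum_congr rfl (fun i _ => ?_)
  rw [nsmul_eq_mul]

theorem Dv_vec {d : ℕ} {p : ℕ[X]} (hp : p.natDegree < d) :
    Dv (vec d p) = om d * aeval (om d) (derivative p) := by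
  have h1 : (X * derivative p).natDegree < d := by
    by_cases h : p.natDegree = 0
    · have : derivative p = 0 := derivative_of_natDegree_zero h
      rw [this, mul_zero, natDegree_zero]; omega
    · have h2 := natDegree_derivative_lt h
      have h3 : (X * derivative p).natDegree ≤ 1 + (derivative p).natDegree :=
        (natDegree_mul_le).trans (by rw [natDegree_X])
      omega
  have h2 : om d * aeval (om d) (derivative p) = aeval (om d) (X * derivative p) := by
    rw [map_mul, aeval_X]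
  rw [h2, aeval_eq_sum_range' h1]
  unfold Dv vec
  rw [Fin.sum_univ_eq_sum_range (fun i => ((i : ℕ) : ℝ) * ((p.coeff i : ℕ) : ℝ) * om d ^ i) d]
  refine Finset.sum_congr rfl (fun i _ => ?_)
  rw [nsmul_eq_mul]
  congr 1
  rcases i with _ | i
  · simp
  · rw [mul_comm X, coeff_mul_X, coeff_derivative]
    push_cast
    ring

theorem ev_add {d : ℕ} (u v : Fin d → ℕ) : ev (fun i => u i + v i) = ev u + ev v := by
  unfold ev
  rw [← Finset.sum_add_distrib]
  refine Finset.sum_congr rfl (fun i _ => ?_)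
  push_cast; ring

theorem Dv_add {d : ℕ} (u v : Fin d → ℕ) : Dv (fun i => u i + v i) = Dv u + Dv v := by
  unfold Dv
  rw [← Finset.sum_add_distrib]
  refine Finset.sum_congr rfl (fun i _ => ?_)
  push_cast; ring

theorem ev_sub {d : ℕ} {u v : Fin d → ℕ} (h : ∀ i, v i ≤ u i) :
    ev (fun i => u i - v i) = ev u - ev v := by
  unfold ev
  rw [← Finset.sum_sub_distrib]
  refine Finset.sum_congr rfl (fun i _ => ?_)
  rw [Nat.cast_sub (h i)]; ring

theorem Dv_sub {d : ℕ} {u v : Fin d → ℕ} (h : ∀ i, v i ≤ u i) :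
    Dv (fun i => u i - v i) = Dv u - Dv v := by
  unfold Dv
  rw [← Finset.sum_sub_distrib]
  refine Finset.sum_congr rfl (fun i _ => ?_)
  rw [Nat.cast_sub (h i)]; ring

theorem ev_two {d : ℕ} (u : Fin d → ℕ) : ev (fun i => 2 * u i) = 2 * ev u := by
  unfold ev
  rw [Finset.mul_sum]
  refine Finset.sum_congr rfl (fun i _ => ?_)
  push_cast; ring

theorem Dv_two {d : ℕ} (u : Fin d → ℕ) : Dv (fun i => 2 * u i) = 2 * Dv u := by
  unfold Dv
  rw [Finset.mul_sum]
  refine Finset.sum_congr rfl (fun i _ => ?_)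
  push_cast; ring

theorem ev_nonneg {d : ℕ} (u : Fin d → ℕ) : 0 ≤ ev u := by
  unfold ev
  exact Finset.sum_nonneg (fun i _ => mul_nonneg (Nat.cast_nonneg _) (pow_nonneg (om_pos d).le _))

theorem coeff_le (p : ℕ[X]) (i : ℕ) : p.coeff i ≤ p.eval 1 := by
  rw [eval_eq_sum_range]
  by_cases h : i ≤ p.natDegree
  · have := Finset.single_le_sum (f := fun i => p.coeff i * 1 ^ i) (s := Finset.range (p.natDegree + 1))
      (fun _ _ => Nat.zero_le _) (Finset.mem_range.2 (Nat.lt_succ_of_le h))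
    simpa using this
  · rw [coeff_eq_zero_of_natDegree_lt (by omega)]
    exact Nat.zero_le _

theorem red_le (d : ℕ) (p : ℕ[X]) (i : Fin d) : red d p i ≤ 3 * p.eval 1 := by
  have h1 := coeff_le p i
  have h2 := coeff_le p (d + i)
  unfold red
  omega

/-- The polynomial with given coefficients. -/
noncomputable def K {e : ℕ} (k : Fin e → ℕ) : ℕ[X] := ∑ i : Fin e, monomial (i : ℕ) (k i)

theorem K_coeff {e : ℕ} (k : Fin e → ℕ) (j : Fin e) : (K k).coeff (j : ℕ) = k j := by
  unfold K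
  rw [finsetSum_coeff, Finset.sum_eq_single j]
  · simp [coeff_monomial]
  · intro i _ hij
    rw [coeff_monomial, if_neg]
    exact fun h => hij (Fin.ext h)
  · simp

theorem K_deg {e : ℕ} (k : Fin e → ℕ) : (K k).natDegree ≤ e - 1 := by
  unfold K
  refine natDegree_sum_le_of_forall_le _ _ (fun i _ => ?_)
  exact (natDegree_monomial_le _).trans (by have := i.2; omega)

theorem K_eval {e : ℕ} (k : Fin e → ℕ) {T : ℕ} (hk : ∀ i, k i ≤ T) : (K k).eval 1 ≤ e * T := by
  unfold K
  rw [eval_finsetSum]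
  calc ∑ i : Fin e, (monomial (i : ℕ) (k i)).eval 1 = ∑ i : Fin e, k i := by
        refine Finset.sum_congr rfl (fun i _ => ?_)
        simp [eval_monomial]
    _ ≤ ∑ _i : Fin e, T := Finset.sum_le_sum (fun i _ => hk i)
    _ = e * T := by simp

end Pool.Agent.helper43.UT
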