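import Mathlib

/-!
# Unit-area triangles in arrangements of lines without parallels: definitions
-/

set_option autoImplicit false

namespace Pool.Agent.helper43.UT

/-- A line of the plane. -/
def IsLine (l : Set (ℝ × ℝ)) : Prop :=
  ∃ a b c : ℝ, (a ≠ 0 ∨ b ≠ 0) ∧ l = {p | a * p.1 + b * p.2 = c}

/-- `L` is an arrangement of lines no two of which are parallel: any two different lines of `L`
have a common point. -/
def NoParallels (L : Finset (Set (ℝ × ℝ))) : Prop :=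
  (∀ l ∈ L, IsLine l) ∧ ∀ l ∈ L, ∀ l' ∈ L, l ≠ l' → (l ∩ l').Nonempty

/-- The area of the triangle with the vertices `P`, `Q`, `R`. -/
noncomputable def area (P Q R : ℝ × ℝ) : ℝ :=
  |(Q.1 - P.1) * (R.2 - P.2) - (R.1 - P.1) * (Q.2 - P.2)| / 2

/-- `t` consists of three different lines which bound a triangle of area `1`. -/
def UnitTriple (t : Finset (Set (ℝ × ℝ))) : Prop :=
  ∃ l₁ l₂ l₃ : Set (ℝ × ℝ), l₁ ≠ l₂ ∧ l₂ ≠ l₃ ∧ l₃ ≠ l₁ ∧
    (t : Set (Set (ℝ × ℝ))) = {l₁, l₂, l₃} ∧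
    ∃ P Q R : ℝ × ℝ, P ∈ l₂ ∩ l₃ ∧ Q ∈ l₃ ∩ l₁ ∧ R ∈ l₁ ∩ l₂ ∧ area P Q R = 1

/-- The number of unit-area triangles determined by `L`. -/
noncomputable def unitTriangles (L : Finset (Set (ℝ × ℝ))) : ℕ :=
  {t : Finset (Set (ℝ × ℝ)) | t ⊆ L ∧ UnitTriple t}.ncard

end Pool.Agent.helper43.UT
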