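import Pool.Agent.helper43.UT.Main

/-!
# Unit-area triangles without parallels: the lower bound for every number of lines
-/

set_option autoImplicit false

namespace Pool.Agent.helper43.UT

theorem pad_tri {A : Finset (ℝ × ℝ)} (hA : Set.InjOn Prod.fst (A : Set (ℝ × ℝ))) {n N : ℕ}
    (hn : A.card ≤ n) (hN : N ≤ unitTriangles (A.map ⟨line, line_inj⟩)) :
    ∃ L : Finset (Set (ℝ × ℝ)), NoParallels L ∧ L.card = n ∧ N ≤ unitTriangles L := by
  obtain ⟨B, hAB, hB, hBn⟩ := pad hA hn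
  refine ⟨B.map ⟨line, line_inj⟩, noParallels hB, by rw [lines_card, hBn], hN.trans ?_⟩
  exact unitTriangles_mono (Finset.map_subset_map.2 hAB)

theorem three_lines : ∃ A : Finset (ℝ × ℝ), Set.InjOn Prod.fst (A : Set (ℝ × ℝ)) ∧
    A.card = 3 ∧ 1 ≤ unitTriangles (A.map ⟨line, line_inj⟩) := by
  classical
  have ne1 : ((2 : ℝ), (2 : ℝ)) ≠ (1, 0) := by
    intro h; have := congrArg Prod.fst h; norm_num at this
  have ne2 : ((1 : ℝ), (0 : ℝ)) ≠ (0, 0) := by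
    intro h; have := congrArg Prod.fst h; norm_num at this
  have ne3 : ((0 : ℝ), (0 : ℝ)) ≠ (2, 2) := by
    intro h; have := congrArg Prod.fst h; norm_num at this
  obtain ⟨A, hA⟩ : ∃ A : Finset (ℝ × ℝ), A = {(2, 2), (1, 0), (0, 0)} := ⟨_, rfl⟩
  have hmem : ∀ x : ℝ × ℝ, x ∈ A ↔ x = (2, 2) ∨ x = (1, 0) ∨ x = (0, 0) := by
    intro x; rw [hA]; simp
  refine ⟨A, ?_, ?_, ?_⟩
  · intro x hx y hy h
    rw [Finset.mem_coe, hmem] at hx hy
    rcases hx with rfl | rfl | rfl <;> rcases hy with rfl | rfl | rfl <;> first | rfl | norm_num at h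
  · rw [hA, Finset.card_eq_three]
    exact ⟨_, _, _, ne1, ne3.symm, ne2, rfl⟩
  · obtain ⟨P, Q, R, h1, h2, h3, h4⟩ := unit_lines (m₁ := 2) (m₂ := 1) (m₃ := 0) (b₁ := 2)
      (b₂ := 0) (b₃ := 0) (by norm_num) (by norm_num) (by norm_num)
    have hU : UnitTriple (A.map ⟨line, line_inj⟩) := by
      refine ⟨line (2, 2), line (1, 0), line (0, 0), fun h => ne1 (line_inj h),
        fun h => ne2 (line_inj h), fun h => ne3 (line_inj h), ?_, P, Q, R, h1, h2, h3, h4⟩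
      rw [hA]
      simp [Finset.map_insert]
    have hfin : {t : Finset (Set (ℝ × ℝ)) | t ⊆ A.map ⟨line, line_inj⟩ ∧ UnitTriple t}.Finite :=
      Set.Finite.subset ((A.map ⟨line, line_inj⟩).powerset.finite_toSet)
        (fun t ht => Finset.mem_coe.2 (Finset.mem_powerset.2 ht.1))
    exact (Set.ncard_pos hfin).2 ⟨_, Finset.Subset.refl _, hU⟩

theorem exists_T {a m n : ℕ} (ha : 0 < a) (hm : 1 ≤ m) (hn : a ≤ n) :
    ∃ T : ℕ, 1 ≤ T ∧ a * T ^ m ≤ n ∧ n < a * (T + 1) ^ m := by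
  classical
  obtain ⟨T, hT⟩ : ∃ T, T = Nat.findGreatest (fun T => a * T ^ m ≤ n) n := ⟨_, rfl⟩
  have h1 : a * 1 ^ m ≤ n := by simpa using hn
  have hn1 : 1 ≤ n := le_trans ha hn
  have hT1 : 1 ≤ T := by rw [hT]; exact Nat.le_findGreatest hn1 h1
  have hT2 : a * T ^ m ≤ n := by
    rw [hT]
    exact Nat.findGreatest_spec (P := fun T => a * T ^ m ≤ n) hn1 h1
  refine ⟨T, hT1, hT2, ?_⟩
  by_contra hcon
  rw [not_lt] at hcon
  by_cases hle : T + 1 ≤ n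
  · have := Nat.findGreatest_is_greatest (P := fun T => a * T ^ m ≤ n) (n := n) (k := T + 1)
      (by rw [← hT]; omega) hle
    exact this hcon
  · have h3 : T + 1 ≤ (T + 1) ^ m := Nat.le_self_pow (by omega) _
    have h4 : (T + 1) ^ m ≤ a * (T + 1) ^ m := Nat.le_mul_of_pos_left _ ha
    omega

theorem lower_bound (d : ℕ) (hd : 2 ≤ d) : ∃ c : ℝ, 0 < c ∧ ∀ n : ℕ, 3 ≤ n →
    ∃ L : Finset (Set (ℝ × ℝ)), NoParallels L ∧ L.card = n ∧
      c * (n : ℝ) ^ ((4 : ℝ) / 3 - 1 / (3 * d)) ≤ unitTriangles L := by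
  obtain ⟨e, rfl⟩ : ∃ e, d = e + 1 := ⟨d - 1, by omega⟩
  have he : 1 ≤ e := by omega
  obtain ⟨a, ha⟩ : ∃ a : ℕ, a = 3 * (54 * (e + 1) ^ 2) ^ (e + 1) := ⟨_, rfl⟩
  have ha0 : 0 < a := by rw [ha]; positivity
  obtain ⟨β, hβ⟩ : ∃ β : ℝ, β = (4 : ℝ) / 3 - 1 / (3 * ((e + 1 : ℕ) : ℝ)) := ⟨_, rfl⟩
  have hd0 : (0 : ℝ) < ((e + 1 : ℕ) : ℝ) := by positivity
  have hβ2 : ((3 * (e + 1) : ℕ) : ℝ) * β = ((4 * e + 3 : ℕ) : ℝ) := by
    rw [hβ]
    push_cast at hd0 ⊢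
    field_simp
    ring
  have hβ0 : 0 < β := by
    have h1 : (0 : ℝ) < ((3 * (e + 1) : ℕ) : ℝ) := by positivity
    have h2 : (0 : ℝ) < ((4 * e + 3 : ℕ) : ℝ) := by positivity
    rw [← hβ2] at h2
    exact (pos_iff_pos_of_mul_pos h2).1 h1
  have haR : (0 : ℝ) < (a : ℝ) := by exact_mod_cast ha0
  have haβ : 0 < (a : ℝ) ^ β := Real.rpow_pos_of_pos haR β
  refine ⟨1 / ((a : ℝ) ^ β * 2 ^ (4 * e + 3)), by positivity, fun n hn => ?_⟩
  rw [← hβ]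
  by_cases hna : n < a
  · obtain ⟨A, hA, hA3, hA1⟩ := three_lines
    obtain ⟨L, hL, hLn, hL1⟩ := pad_tri hA (n := n) (by omega) hA1
    refine ⟨L, hL, hLn, le_trans ?_ (Nat.one_le_cast.2 hL1)⟩
    have h1 : (n : ℝ) ^ β ≤ (a : ℝ) ^ β :=
      Real.rpow_le_rpow (Nat.cast_nonneg n) (by exact_mod_cast hna.le) hβ0.le
    have h2 : (1 : ℝ) ≤ 2 ^ (4 * e + 3) := one_le_pow₀ (by norm_num)
    rw [div_mul_eq_mul_div, one_mul, div_le_one (by positivity)]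
    calc (n : ℝ) ^ β ≤ (a : ℝ) ^ β * 1 := by rw [mul_one]; exact h1
      _ ≤ (a : ℝ) ^ β * 2 ^ (4 * e + 3) := by gcongr
  · rw [not_lt] at hna
    obtain ⟨T, hT1, hT2, hT3⟩ := exists_T ha0 (m := 3 * (e + 1)) (by omega) hna
    obtain ⟨A, hA, hAc, hAt⟩ := construction he T
    have hc : 3 * ((3 * UU e T) ^ (e + 1) * (3 * (2 * T)) ^ (e + 1)) = a * T ^ (3 * (e + 1)) := by
      rw [ha, pow_mul, mul_assoc, ← mul_pow, ← mul_pow]
      congr 2
      unfold UU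
      ring
    obtain ⟨L, hL, hLn, hLt⟩ := pad_tri hA (n := n) (by rw [hAc, hc]; exact hT2) hAt
    refine ⟨L, hL, hLn, le_trans ?_ (Nat.cast_le.2 hLt)⟩
    have h1 : T ^ (4 * e + 3) ≤ UU e T ^ (e + 1) * ((2 * T) ^ (e + 1) * T ^ e) := by
      have h2 : UU e T ^ (e + 1) * ((2 * T) ^ (e + 1) * T ^ e)
          = (6 * (e + 1) ^ 2) ^ (e + 1) * T ^ (4 * e + 3) := by
        rw [← mul_assoc, ← mul_pow]
        have : UU e T * (2 * T) = 6 * (e + 1) ^ 2 * T ^ 3 := by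
          unfold UU; ring
        rw [this, mul_pow, mul_assoc, ← pow_mul, ← pow_add]
        congr 2
        ring
      rw [h2]
      exact Nat.le_mul_of_pos_left _ (by positivity)
    have h2 : (n : ℝ) ^ β ≤ (a : ℝ) ^ β * 2 ^ (4 * e + 3) * (T : ℝ) ^ (4 * e + 3) := by
      have h3 : (n : ℝ) ≤ (a : ℝ) * (2 * T) ^ (3 * (e + 1)) := by
        have h4 : n ≤ a * (2 * T) ^ (3 * (e + 1)) :=
          hT3.le.trans (Nat.mul_le_mul_left _ (Nat.pow_le_pow_left (by omega) _))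
        exact_mod_cast h4
      calc (n : ℝ) ^ β ≤ ((a : ℝ) * (2 * T) ^ (3 * (e + 1))) ^ β :=
            Real.rpow_le_rpow (Nat.cast_nonneg n) h3 hβ0.le
        _ = (a : ℝ) ^ β * ((2 * T : ℝ) ^ (3 * (e + 1))) ^ β :=
            Real.mul_rpow haR.le (by positivity)
        _ = (a : ℝ) ^ β * (2 * T : ℝ) ^ (4 * e + 3) := by
            rw [← Real.rpow_natCast (2 * (T : ℝ)) (3 * (e + 1)), ← Real.rpow_mul (by positivity),
              hβ2, Real.rpow_natCast]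
        _ = _ := by rw [mul_pow, mul_assoc]
    rw [div_mul_eq_mul_div, one_mul, div_le_iff₀ (by positivity)]
    calc (n : ℝ) ^ β ≤ (a : ℝ) ^ β * 2 ^ (4 * e + 3) * (T : ℝ) ^ (4 * e + 3) := h2
      _ = ((T ^ (4 * e + 3) : ℕ) : ℝ) * ((a : ℝ) ^ β * 2 ^ (4 * e + 3)) := by push_cast; ring
      _ ≤ _ := by
        gcongr

end Pool.Agent.helper43.UT
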