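import Mathlib

/-!
# Unit-area triangles without parallels: a generic point
-/

set_option autoImplicit false

namespace Pool.Agent.helper43.UT

open Polynomial

theorem exists_generic (F : Finset ℝ[X]) :
    ∃ θ : ℝ, 0 < θ ∧ Set.InjOn (fun p : ℝ[X] => p.eval θ) (F : Set ℝ[X]) := by
  classical
  let bad : Finset ℝ := F.biUnion (fun p => F.biUnion (fun q => (p - q).roots.toFinset))
  obtain ⟨θ, hθ, hbad⟩ := (Set.Ioi_infinite (0 : ℝ)).exists_notMem_finset bad
  refine ⟨θ, hθ, fun p hp q hq h => ?_⟩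
  by_contra hne
  refine hbad ?_
  refine Finset.mem_biUnion.2 ⟨p, Finset.mem_coe.1 hp, Finset.mem_biUnion.2
    ⟨q, Finset.mem_coe.1 hq, ?_⟩⟩
  rw [Multiset.mem_toFinset, mem_roots (sub_ne_zero.2 hne), IsRoot.def, eval_sub]
  exact sub_eq_zero.2 h

end Pool.Agent.helper43.UT
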