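import Pool.Agent.helper43.UT.Defs

/-!
# Unit-area triangles without parallels: lines given by slope and intercept
-/

set_option autoImplicit false

namespace Pool.Agent.helper43.UT

/-- The line with slope `q.1` and intercept `q.2`. -/
def line (q : ℝ × ℝ) : Set (ℝ × ℝ) := {p | p.2 = q.1 * p.1 + q.2}

theorem mem_line {q p : ℝ × ℝ} : p ∈ line q ↔ p.2 = q.1 * p.1 + q.2 := Iff.rfl

theorem line_inj : Function.Injective line := by
  intro q q' h
  have h0 : ((0 : ℝ), q.2) ∈ line q := by rw [mem_line]; simp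
  have h1 : ((1 : ℝ), q.1 + q.2) ∈ line q := by rw [mem_line]; simp
  rw [h, mem_line] at h0 h1
  simp only [mul_zero, zero_add, mul_one] at h0 h1
  ext
  · linarith
  · exact h0

theorem isLine_line (q : ℝ × ℝ) : IsLine (line q) := by
  refine ⟨-q.1, 1, q.2, Or.inr one_ne_zero, ?_⟩
  ext p
  rw [mem_line, Set.mem_setOf_eq]
  constructor <;> intro h <;> linarith

theorem meet {q q' : ℝ × ℝ} (h : q.1 ≠ q'.1) : (line q ∩ line q').Nonempty := by
  have h' : q.1 - q'.1 ≠ 0 := sub_ne_zero.2 h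
  refine ⟨(-(q.2 - q'.2) / (q.1 - q'.1), q.1 * (-(q.2 - q'.2) / (q.1 - q'.1)) + q.2), ?_, ?_⟩
  · rw [mem_line]
  · rw [mem_line]
    simp only
    field_simp
    ring

/-- Three lines with a triangle of area one. -/
theorem unit_lines {m₁ m₂ m₃ b₁ b₂ b₃ : ℝ} (h12 : 0 < m₁ - m₂) (h23 : 0 < m₂ - m₃)
    (h : ((b₁ - b₂) * (m₂ - m₃) - (b₂ - b₃) * (m₁ - m₂)) ^ 2
      = 2 * ((m₁ - m₂) * (m₂ - m₃) * (m₁ - m₃))) :
    ∃ P Q R : ℝ × ℝ, P ∈ line (m₂, b₂) ∩ line (m₃, b₃) ∧ Q ∈ line (m₃, b₃) ∩ line (m₁, b₁) ∧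
      R ∈ line (m₁, b₁) ∩ line (m₂, b₂) ∧ area P Q R = 1 := by
  obtain ⟨x, hx⟩ : ∃ x, m₁ - m₂ = x := ⟨_, rfl⟩
  obtain ⟨y, hy⟩ : ∃ y, m₂ - m₃ = y := ⟨_, rfl⟩
  obtain ⟨a, ha⟩ : ∃ a, b₁ - b₂ = a := ⟨_, rfl⟩
  obtain ⟨b, hb⟩ : ∃ b, b₂ - b₃ = b := ⟨_, rfl⟩
  have hm2 : m₂ = m₃ + y := by linarith
  have hm1 : m₁ = m₃ + y + x := by linarith
  have hb2 : b₂ = b₃ + b := by linarith
  have hb1 : b₁ = b₃ + b + a := by linarith
  rw [hx] at h12
  rw [hy] at h23
  have hxy : 0 < x + y := by linarith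
  have h13 : m₁ - m₃ = x + y := by linarith
  rw [hx, hy, ha, hb, h13] at h
  subst hm2
  subst hm1
  subst hb2
  subst hb1
  refine ⟨(-b / y, m₃ * (-b / y) + b₃), (-(a + b) / (x + y), m₃ * (-(a + b) / (x + y)) + b₃),
    (-a / x, (m₃ + y) * (-a / x) + (b₃ + b)), ⟨?_, ?_⟩, ⟨?_, ?_⟩, ⟨?_, ?_⟩, ?_⟩
  · rw [mem_line]
    simp only
    field_simp
    ring
  · rw [mem_line]
  · rw [mem_line]
  · rw [mem_line]
    simp only
    field_simp
    ring
  · rw [mem_line]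
    simp only
    field_simp
    ring
  · rw [mem_line]
  · unfold area
    simp only
    have hc : (-(a + b) / (x + y) - -b / y) * ((m₃ + y) * (-a / x) + (b₃ + b)
        - (m₃ * (-b / y) + b₃)) - (-a / x - -b / y) * (m₃ * (-(a + b) / (x + y)) + b₃
        - (m₃ * (-b / y) + b₃)) = (a * y - b * x) ^ 2 / (x * y * (x + y)) := by
      field_simp
      ring
    rw [hc, h, mul_div_assoc, div_self (by positivity)]
    norm_num

theorem lines_card {A : Finset (ℝ × ℝ)} : (A.map ⟨line, line_inj⟩).card = A.card :=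
  Finset.card_map _

theorem noParallels {A : Finset (ℝ × ℝ)} (hA : Set.InjOn Prod.fst (A : Set (ℝ × ℝ))) :
    NoParallels (A.map ⟨line, line_inj⟩) := by
  constructor
  · intro l hl
    obtain ⟨q, _, rfl⟩ := Finset.mem_map.1 hl
    exact isLine_line q
  · intro l hl l' hl' hne
    obtain ⟨q, hq, rfl⟩ := Finset.mem_map.1 hl
    obtain ⟨q', hq', rfl⟩ := Finset.mem_map.1 hl'
    refine meet (fun h => hne ?_)
    rw [hA (Finset.mem_coe.2 hq) (Finset.mem_coe.2 hq') h]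

theorem pad {A : Finset (ℝ × ℝ)} (hA : Set.InjOn Prod.fst (A : Set (ℝ × ℝ))) {n : ℕ}
    (hn : A.card ≤ n) : ∃ B : Finset (ℝ × ℝ), A ⊆ B ∧ Set.InjOn Prod.fst (B : Set (ℝ × ℝ)) ∧
      B.card = n := by
  classical
  have hc : (A.image Prod.fst).card = A.card := Finset.card_image_of_injOn hA
  obtain ⟨M, hM, hMn⟩ := Infinite.exists_superset_card_eq (A.image Prod.fst) n (by omega)
  let f : ℝ → ℝ × ℝ := fun m => if h : ∃ q ∈ A, q.1 = m then h.choose else (m, 0)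
  have hf : ∀ m, (f m).1 = m := by
    intro m
    simp only [f]
    split
    · rename_i h
      exact h.choose_spec.2
    · rfl
  have hfA : ∀ q ∈ A, f q.1 = q := by
    intro q hq
    have h : ∃ q' ∈ A, q'.1 = q.1 := ⟨q, hq, rfl⟩
    have h2 : f q.1 = h.choose := by
      simp only [f]
      rw [dif_pos h]
    rw [h2]
    exact hA (Finset.mem_coe.2 h.choose_spec.1) (Finset.mem_coe.2 hq) h.choose_spec.2
  refine ⟨M.image f, ?_, ?_, ?_⟩
  · intro q hq
    exact Finset.mem_image.2 ⟨q.1, hM (Finset.mem_image_of_mem _ hq), hfA q hq⟩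
  · intro q hq q' hq' h
    obtain ⟨m, _, rfl⟩ := Finset.mem_image.1 (Finset.mem_coe.1 hq)
    obtain ⟨m', _, rfl⟩ := Finset.mem_image.1 (Finset.mem_coe.1 hq')
    rw [hf, hf] at h
    rw [h]
  · rw [Finset.card_image_of_injective _ (fun m m' h => by rw [← hf m, ← hf m', h]), hMn]

theorem unitTriangles_mono {L L' : Finset (Set (ℝ × ℝ))} (h : L ⊆ L') :
    unitTriangles L ≤ unitTriangles L' := by
  unfold unitTriangles
  refine Set.ncard_le_ncard (fun t ht => ⟨ht.1.trans h, ht.2⟩) ?_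
  refine Set.Finite.subset (L'.powerset.finite_toSet) (fun t ht => ?_)
  exact Finset.mem_coe.2 (Finset.mem_powerset.2 ht.1)

end Pool.Agent.helper43.UT
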