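import Pool.Agent.helper43.UT.Alg
import Pool.Agent.helper43.UT.Geo
import Pool.Agent.helper43.UT.Gen

/-!
# Unit-area triangles without parallels: the construction
-/

set_option autoImplicit false

namespace Pool.Agent.helper43.UT

open Polynomial

/-- coefficient vectors attached to a parameter `k` -/
noncomputable def q1 {e : ℕ} (k : Fin e → ℕ) : Fin (e + 1) → ℕ := red (e + 1) (K k * K k)
noncomputable def q2 {e : ℕ} (k : Fin e → ℕ) : Fin (e + 1) → ℕ := red (e + 1) (X * (K k * K k))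
noncomputable def w1 {e : ℕ} (k : Fin e → ℕ) : Fin (e + 1) → ℕ :=
  fun i => 2 * vec (e + 1) (K k) i
noncomputable def w2 {e : ℕ} (k : Fin e → ℕ) : Fin (e + 1) → ℕ :=
  fun i => 2 * vec (e + 1) (X * K k) i

theorem ev_q1 {e : ℕ} (he : 1 ≤ e) (k : Fin e → ℕ) :
    ev (q1 k) = aeval (om (e + 1)) (K k) ^ 2 := by
  unfold q1
  rw [ev_red (by omega), map_mul, sq]
  have h1 := K_deg k
  have h2 := natDegree_mul_le (p := K k) (q := K k)
  omega

theorem ev_q2 {e : ℕ} (he : 1 ≤ e) (k : Fin e → ℕ) :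
    ev (q2 k) = om (e + 1) * aeval (om (e + 1)) (K k) ^ 2 := by
  unfold q2
  rw [ev_red (by omega), map_mul, map_mul, aeval_X, sq]
  have h1 := K_deg k
  have h2 := natDegree_mul_le (p := K k) (q := K k)
  have h3 := natDegree_mul_le (p := (X : ℕ[X])) (q := K k * K k)
  rw [natDegree_X] at h3
  omega

theorem ev_w1 {e : ℕ} (he : 1 ≤ e) (k : Fin e → ℕ) :
    ev (w1 k) = 2 * aeval (om (e + 1)) (K k) := by
  unfold w1
  rw [ev_two, ev_vec]
  have h1 := K_deg k
  omega

theorem Dv_w1 {e : ℕ} (he : 1 ≤ e) (k : Fin e → ℕ) :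
    Dv (w1 k) = 2 * (om (e + 1) * aeval (om (e + 1)) (derivative (K k))) := by
  unfold w1
  rw [Dv_two, Dv_vec]
  have h1 := K_deg k
  omega

theorem deg_XK {e : ℕ} (he : 1 ≤ e) (k : Fin e → ℕ) : (X * K k).natDegree < e + 1 := by
  have h1 := K_deg k
  have h3 := natDegree_mul_le (p := (X : ℕ[X])) (q := K k)
  rw [natDegree_X] at h3
  omega

theorem ev_w2 {e : ℕ} (he : 1 ≤ e) (k : Fin e → ℕ) :
    ev (w2 k) = 2 * (om (e + 1) * aeval (om (e + 1)) (K k)) := by
  unfold w2
  rw [ev_two, ev_vec (deg_XK he k), map_mul, aeval_X]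

theorem Dv_w2 {e : ℕ} (he : 1 ≤ e) (k : Fin e → ℕ) :
    Dv (w2 k) = 2 * (om (e + 1) * (aeval (om (e + 1)) (K k)
      + om (e + 1) * aeval (om (e + 1)) (derivative (K k)))) := by
  unfold w2
  rw [Dv_two, Dv_vec (deg_XK he k), derivative_mul, derivative_X, one_mul, map_add, map_mul,
    aeval_X]

/-- Parameters of lines: the class and two coefficient vectors. -/
abbrev Par (e : ℕ) : Type := Fin 3 × (Fin (e + 1) → ℕ) × (Fin (e + 1) → ℕ)

noncomputable def Ec (e : ℕ) (j : Fin 3) : ℝ :=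
  if j = 0 then 0 else if j = 1 then 1 else -om (e + 1)

noncomputable def cc (e : ℕ) : ℝ := Real.sqrt ((1 + om (e + 1)) / (2 * om (e + 1)))

theorem cc_sq (e : ℕ) : cc e ^ 2 = (1 + om (e + 1)) / (2 * om (e + 1)) := by
  unfold cc
  rw [Real.sq_sqrt]
  have := om_pos (e + 1)
  positivity

noncomputable def slope {e : ℕ} (θ : ℝ) (p : Par e) : ℝ :=
  ev p.2.1 + ev p.2.2 * θ + Ec e p.1 * θ ^ 2

noncomputable def icept {e : ℕ} (θ : ℝ) (p : Par e) : ℝ :=
  cc e * Dv p.2.2 - if p.1 = 2 then 2 * cc e * om (e + 1) * θ else 0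

noncomputable def pr {e : ℕ} (θ : ℝ) (p : Par e) : ℝ × ℝ := (slope θ p, icept θ p)

noncomputable def pol {e : ℕ} (p : Par e) : ℝ[X] :=
  C (ev p.2.1) + C (ev p.2.2) * X + C (Ec e p.1) * X ^ 2

theorem pol_eval {e : ℕ} (θ : ℝ) (p : Par e) : (pol p).eval θ = slope θ p := by
  unfold pol slope
  simp

theorem Ec_inj {e : ℕ} : Function.Injective (Ec e) := by
  have h := om_pos (e + 1)
  intro i j hij
  unfold Ec at hij
  fin_cases i <;> fin_cases j <;> simp at hij ⊢ <;> linarith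

theorem pol_inj {e : ℕ} : Function.Injective (pol : Par e → ℝ[X]) := by
  intro p q h
  have h0 : (pol p).coeff 0 = (pol q).coeff 0 := by rw [h]
  have h1 : (pol p).coeff 1 = (pol q).coeff 1 := by rw [h]
  have h2 : (pol p).coeff 2 = (pol q).coeff 2 := by rw [h]
  unfold pol at h0 h1 h2
  simp [coeff_X, coeff_C] at h0 h1 h2
  have e0 := ev_inj (Nat.succ_ne_zero e) h0
  have e1 := ev_inj (Nat.succ_ne_zero e) h1
  exact Prod.ext (Ec_inj h2) (Prod.ext e0 e1)

/-- the three parameters of the triangle given by a base point `(u, v)` and `k` -/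
noncomputable def p1 {e : ℕ} (u v : Fin (e + 1) → ℕ) (k : Fin e → ℕ) : Par e :=
  (1, (fun i => u i + q1 k i), (fun i => v i + w1 k i))
noncomputable def p3 {e : ℕ} (u v : Fin (e + 1) → ℕ) (k : Fin e → ℕ) : Par e :=
  (2, (fun i => u i - q2 k i), (fun i => v i - w2 k i))

theorem triangle {e : ℕ} (he : 1 ≤ e) {θ : ℝ} (hθ : 0 < θ) (u v : Fin (e + 1) → ℕ)
    (k : Fin e → ℕ) (hu : ∀ i, q2 k i ≤ u i) (hv : ∀ i, w2 k i ≤ v i) :
    ∃ P Q R : ℝ × ℝ, P ∈ line (pr θ ((0, u, v) : Par e)) ∩ line (pr θ (p3 u v k)) ∧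
      Q ∈ line (pr θ (p3 u v k)) ∩ line (pr θ (p1 u v k)) ∧
      R ∈ line (pr θ (p1 u v k)) ∩ line (pr θ ((0, u, v) : Par e)) ∧ area P Q R = 1 := by
  have hω := om_pos (e + 1)
  set ω := om (e + 1) with hωd
  set κ : ℝ := aeval ω (K k) with hκ
  set κ' : ℝ := aeval ω (derivative (K k)) with hκ'
  have hκ0 : 0 ≤ κ := by
    have h := ev_w1 he k
    have h2 := ev_nonneg (w1 k)
    rw [h] at h2
    linarith
  have hs : 0 < θ + κ := by linarith
  have s1 : slope θ (p1 u v k) = ev u + κ ^ 2 + (ev v + 2 * κ) * θ + θ ^ 2 := by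
    unfold slope p1
    simp only
    rw [ev_add, ev_add, ev_q1 he, ev_w1 he]
    simp [Ec]
    ring
  have s2 : slope θ ((0, u, v) : Par e) = ev u + ev v * θ := by
    unfold slope
    simp [Ec]
  have s3 : slope θ (p3 u v k) = ev u - ω * κ ^ 2 + (ev v - 2 * (ω * κ)) * θ - ω * θ ^ 2 := by
    unfold slope p3
    simp only
    rw [ev_sub hu, ev_sub hv, ev_q2 he, ev_w2 he]
    simp [Ec]
    ring
  have i1 : icept θ (p1 u v k) = cc e * (Dv v + 2 * (ω * κ')) := by
    unfold icept p1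
    simp only
    rw [Dv_add, Dv_w1 he, if_neg (by decide), sub_zero]
  have i2 : icept θ ((0, u, v) : Par e) = cc e * Dv v := by
    unfold icept
    simp
  have i3 : icept θ (p3 u v k) = cc e * (Dv v - 2 * (ω * (κ + ω * κ'))) - 2 * cc e * ω * θ := by
    unfold icept p3
    simp only
    rw [Dv_sub hv, Dv_w2 he, if_pos trivial]
  unfold pr
  refine unit_lines ?_ ?_ ?_
  · rw [s1, s2]
    have : ev u + κ ^ 2 + (ev v + 2 * κ) * θ + θ ^ 2 - (ev u + ev v * θ) = (θ + κ) ^ 2 := by ring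
    rw [this]
    positivity
  · rw [s2, s3]
    have : ev u + ev v * θ - (ev u - ω * κ ^ 2 + (ev v - 2 * (ω * κ)) * θ - ω * θ ^ 2)
        = ω * (θ + κ) ^ 2 := by ring
    rw [this]
    positivity
  · rw [s1, s2, s3, i1, i2, i3]
    have hc := cc_sq e
    rw [← hωd] at hc
    have hc' : cc e ^ 2 * (2 * ω) = 1 + ω := by
      rw [hc]; field_simp
    have e1 : (cc e * (Dv v + 2 * (ω * κ')) - cc e * Dv v) * (ev u + ev v * θ - (ev u - ω * κ ^ 2
        + (ev v - 2 * (ω * κ)) * θ - ω * θ ^ 2)) - (cc e * Dv v - (cc e * (Dv v - 2 * (ω * (κ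
        + ω * κ'))) - 2 * cc e * ω * θ)) * (ev u + κ ^ 2 + (ev v + 2 * κ) * θ + θ ^ 2
        - (ev u + ev v * θ)) = -(2 * cc e * ω * (θ + κ) ^ 3) := by ring
    rw [e1]
    have e2 : 2 * ((ev u + κ ^ 2 + (ev v + 2 * κ) * θ + θ ^ 2 - (ev u + ev v * θ)) *
        (ev u + ev v * θ - (ev u - ω * κ ^ 2 + (ev v - 2 * (ω * κ)) * θ - ω * θ ^ 2)) *
        (ev u + κ ^ 2 + (ev v + 2 * κ) * θ + θ ^ 2 - (ev u - ω * κ ^ 2
        + (ev v - 2 * (ω * κ)) * θ - ω * θ ^ 2))) = 2 * ω * (1 + ω) * (θ + κ) ^ 6 := by ring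
    rw [e2]
    have e3 : (-(2 * cc e * ω * (θ + κ) ^ 3)) ^ 2 = 2 * ω * (cc e ^ 2 * (2 * ω)) * (θ + κ) ^ 6 := by
      ring
    rw [e3, hc']

/-- the size of the box of the first coefficients -/
def UU (e T : ℕ) : ℕ := 3 * ((e + 1) * T) ^ 2

theorem q1_le {e T : ℕ} (k : Fin e → ℕ) (hk : ∀ i, k i < T) (i : Fin (e + 1)) :
    q1 k i ≤ UU e T := by
  unfold q1 UU
  refine (red_le _ _ i).trans (Nat.mul_le_mul_left 3 ?_)
  have h := K_eval k (fun i => (hk i).le)
  rw [eval_mul, ← sq]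
  refine Nat.pow_le_pow_left (h.trans ?_) 2
  exact Nat.mul_le_mul_right T (Nat.le_succ e)

theorem q2_le {e T : ℕ} (k : Fin e → ℕ) (hk : ∀ i, k i < T) (i : Fin (e + 1)) :
    q2 k i ≤ UU e T := by
  unfold q2 UU
  refine (red_le _ _ i).trans (Nat.mul_le_mul_left 3 ?_)
  have h := K_eval k (fun i => (hk i).le)
  rw [eval_mul, eval_X, one_mul, eval_mul, ← sq]
  refine Nat.pow_le_pow_left (h.trans ?_) 2
  exact Nat.mul_le_mul_right T (Nat.le_succ e)

theorem K_coeff_le {e T : ℕ} (k : Fin e → ℕ) (hk : ∀ i, k i < T) (j : ℕ) :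
    (K k).coeff j ≤ T := by
  by_cases h : j < e
  · have := K_coeff k ⟨j, h⟩
    simp only at this
    rw [this]
    exact (hk _).le
  · by_cases he : e = 0
    · subst he
      unfold K
      simp
    · rw [coeff_eq_zero_of_natDegree_lt]
      · exact Nat.zero_le _
      · have := K_deg k
        omega

theorem w1_le {e T : ℕ} (k : Fin e → ℕ) (hk : ∀ i, k i < T) (i : Fin (e + 1)) :
    w1 k i ≤ 2 * T := by
  unfold w1 vec
  exact Nat.mul_le_mul_left 2 (K_coeff_le k hk _)

theorem w2_le {e T : ℕ} (k : Fin e → ℕ) (hk : ∀ i, k i < T) (i : Fin (e + 1)) :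
    w2 k i ≤ 2 * T := by
  unfold w2 vec
  refine Nat.mul_le_mul_left 2 ?_
  rcases hi : (i : ℕ) with _ | j
  · simp
  · rw [coeff_X_mul]
    exact K_coeff_le k hk _

/-- the box of parameters -/
noncomputable def box (e T : ℕ) : Finset (Par e) :=
  Finset.univ ×ˢ (Fintype.piFinset (fun _ => Finset.range (3 * UU e T)) ×ˢ
    Fintype.piFinset (fun _ => Finset.range (3 * (2 * T))))

theorem mem_box {e T : ℕ} {p : Par e} : p ∈ box e T ↔
    (∀ i, p.2.1 i < 3 * UU e T) ∧ ∀ i, p.2.2 i < 3 * (2 * T) := by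
  unfold box
  simp [Fintype.mem_piFinset]

theorem box_card (e T : ℕ) :
    (box e T).card = 3 * ((3 * UU e T) ^ (e + 1) * (3 * (2 * T)) ^ (e + 1)) := by
  unfold box
  rw [Finset.card_product, Finset.card_product, Fintype.card_piFinset, Fintype.card_piFinset]
  simp

/-- the base points -/
noncomputable def base (e T : ℕ) :
    Finset ((Fin (e + 1) → ℕ) × (Fin (e + 1) → ℕ) × (Fin e → ℕ)) :=
  Fintype.piFinset (fun _ => Finset.Ico (UU e T) (2 * UU e T)) ×ˢ
    (Fintype.piFinset (fun _ => Finset.Ico (2 * T) (2 * (2 * T))) ×ˢ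
      Fintype.piFinset (fun _ => Finset.range T))

theorem mem_base {e T : ℕ} {b : (Fin (e + 1) → ℕ) × (Fin (e + 1) → ℕ) × (Fin e → ℕ)} :
    b ∈ base e T ↔ (∀ i, UU e T ≤ b.1 i ∧ b.1 i < 2 * UU e T) ∧
      (∀ i, 2 * T ≤ b.2.1 i ∧ b.2.1 i < 2 * (2 * T)) ∧ ∀ i, b.2.2 i < T := by
  unfold base
  simp [Fintype.mem_piFinset]

theorem base_card (e T : ℕ) :
    (base e T).card = UU e T ^ (e + 1) * ((2 * T) ^ (e + 1) * T ^ e) := by
  unfold base
  rw [Finset.card_product, Finset.card_product, Fintype.card_piFinset, Fintype.card_piFinset,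
    Fintype.card_piFinset]
  have h1 : 2 * UU e T - UU e T = UU e T := by omega
  have h2 : 2 * (2 * T) - 2 * T = 2 * T := by omega
  simp [h1, h2]

theorem construction {e : ℕ} (he : 1 ≤ e) (T : ℕ) :
    ∃ A : Finset (ℝ × ℝ), Set.InjOn Prod.fst (A : Set (ℝ × ℝ)) ∧
      A.card = 3 * ((3 * UU e T) ^ (e + 1) * (3 * (2 * T)) ^ (e + 1)) ∧
      UU e T ^ (e + 1) * ((2 * T) ^ (e + 1) * T ^ e)
        ≤ unitTriangles (A.map ⟨line, line_inj⟩) := by
  classical
  obtain ⟨θ, hθ, hinj⟩ := exists_generic ((box e T).image pol)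
  have hsl : Set.InjOn (slope θ) (box e T : Set (Par e)) := by
    intro p hp q hq h
    refine pol_inj (hinj (Finset.mem_coe.2 (Finset.mem_image_of_mem _ (Finset.mem_coe.1 hp)))
      (Finset.mem_coe.2 (Finset.mem_image_of_mem _ (Finset.mem_coe.1 hq))) ?_)
    show (pol p).eval θ = (pol q).eval θ
    rw [pol_eval, pol_eval, h]
  have hpr : Set.InjOn (pr θ) (box e T : Set (Par e)) := fun p hp q hq h =>
    hsl hp hq (congrArg Prod.fst h)
  have hF : Set.InjOn (fun p => line (pr θ p)) (box e T : Set (Par e)) := fun p hp q hq h =>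
    hpr hp hq (line_inj h)
  refine ⟨(box e T).image (pr θ), ?_, ?_, ?_⟩
  · intro x hx y hy h
    obtain ⟨p, hp, rfl⟩ := Finset.mem_image.1 (Finset.mem_coe.1 hx)
    obtain ⟨q, hq, rfl⟩ := Finset.mem_image.1 (Finset.mem_coe.1 hy)
    rw [hsl (Finset.mem_coe.2 hp) (Finset.mem_coe.2 hq) h]
  · rw [Finset.card_image_of_injOn hpr, box_card]
  · have hm : ∀ b ∈ base e T, ((0, b.1, b.2.1) : Par e) ∈ box e T ∧
        p1 b.1 b.2.1 b.2.2 ∈ box e T ∧ p3 b.1 b.2.1 b.2.2 ∈ box e T := by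
      intro b hb
      rw [mem_base] at hb
      obtain ⟨h1, h2, h3⟩ := hb
      rw [mem_box, mem_box, mem_box]
      refine ⟨⟨fun i => ?_, fun i => ?_⟩, ⟨fun i => ?_, fun i => ?_⟩, fun i => ?_, fun i => ?_⟩
      · have := h1 i; simp only; omega
      · have := h2 i; simp only; omega
      · have := h1 i
        have := q1_le b.2.2 h3 i
        simp only [p1]; omega
      · have := h2 i
        have := w1_le b.2.2 h3 i
        simp only [p1]; omega
      · have := h1 i
        simp only [p3]; omega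
      · have := h2 i
        simp only [p3]; omega
    let tr : ((Fin (e + 1) → ℕ) × (Fin (e + 1) → ℕ) × (Fin e → ℕ)) →
        Finset (Set (ℝ × ℝ)) := fun b =>
      {line (pr θ (p1 b.1 b.2.1 b.2.2)), line (pr θ ((0, b.1, b.2.1) : Par e)),
        line (pr θ (p3 b.1 b.2.1 b.2.2))}
    have htr : Set.InjOn tr (base e T : Set _) := by
      intro b hb b' hb' h
      obtain ⟨m0, m1, m3⟩ := hm b (Finset.mem_coe.1 hb)
      obtain ⟨n0, n1, n3⟩ := hm b' (Finset.mem_coe.1 hb')
      have g0 : line (pr θ ((0, b.1, b.2.1) : Par e)) ∈ tr b' := by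
        rw [← h]; simp [tr]
      have g1 : line (pr θ (p1 b.1 b.2.1 b.2.2)) ∈ tr b' := by
        rw [← h]; simp [tr]
      simp only [tr, Finset.mem_insert, Finset.mem_singleton] at g0 g1
      have a0 : ((0, b.1, b.2.1) : Par e) = (0, b'.1, b'.2.1) := by
        rcases g0 with g0 | g0 | g0
        · have := congrArg Prod.fst (hF (Finset.mem_coe.2 m0) (Finset.mem_coe.2 n1) g0)
          simp [p1] at this
        · exact hF (Finset.mem_coe.2 m0) (Finset.mem_coe.2 n0) g0
        · have := congrArg Prod.fst (hF (Finset.mem_coe.2 m0) (Finset.mem_coe.2 n3) g0)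
          simp [p3] at this
      have a1 : p1 b.1 b.2.1 b.2.2 = p1 b'.1 b'.2.1 b'.2.2 := by
        rcases g1 with g1 | g1 | g1
        · exact hF (Finset.mem_coe.2 m1) (Finset.mem_coe.2 n1) g1
        · have := congrArg Prod.fst (hF (Finset.mem_coe.2 m1) (Finset.mem_coe.2 n0) g1)
          simp [p1] at this
        · have := congrArg Prod.fst (hF (Finset.mem_coe.2 m1) (Finset.mem_coe.2 n3) g1)
          simp [p1, p3] at this
      have c1 : b.1 = b'.1 := congrArg (fun p => p.2.1) a0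
      have c2 : b.2.1 = b'.2.1 := congrArg (fun p => p.2.2) a0
      have c3 : b.2.2 = b'.2.2 := by
        funext j
        have := congrFun (congrArg (fun p => p.2.2) a1) ⟨(j : ℕ), by have := j.2; omega⟩
        simp only [p1, w1, vec] at this
        rw [c2] at this
        have k1 := K_coeff b.2.2 j
        have k2 := K_coeff b'.2.2 j
        rw [k1, k2] at this
        omega
      exact Prod.ext c1 (Prod.ext c2 c3)
    have hsub : (((base e T).image tr : Finset (Finset (Set (ℝ × ℝ)))) : Set _) ⊆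
        {t : Finset (Set (ℝ × ℝ)) | t ⊆ ((box e T).image (pr θ)).map ⟨line, line_inj⟩ ∧
          UnitTriple t} := by
      intro t ht
      obtain ⟨b, hb, rfl⟩ := Finset.mem_image.1 (Finset.mem_coe.1 ht)
      obtain ⟨m0, m1, m3⟩ := hm b hb
      have hin : ∀ p ∈ box e T, line (pr θ p) ∈
          ((box e T).image (pr θ)).map ⟨line, line_inj⟩ := fun p hp =>
        Finset.mem_map.2 ⟨pr θ p, Finset.mem_image_of_mem _ hp, rfl⟩
      refine ⟨?_, ?_⟩
      · intro l hl
        simp only [tr, Finset.mem_insert, Finset.mem_singleton] at hl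
        rcases hl with rfl | rfl | rfl
        · exact hin _ m1
        · exact hin _ m0
        · exact hin _ m3
      · refine ⟨line (pr θ (p1 b.1 b.2.1 b.2.2)), line (pr θ ((0, b.1, b.2.1) : Par e)),
          line (pr θ (p3 b.1 b.2.1 b.2.2)), ?_, ?_, ?_, ?_, ?_⟩
        · intro h
          have := congrArg Prod.fst (hF (Finset.mem_coe.2 m1) (Finset.mem_coe.2 m0) h)
          simp [p1] at this
        · intro h
          have := congrArg Prod.fst (hF (Finset.mem_coe.2 m0) (Finset.mem_coe.2 m3) h)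
          simp [p3] at this
        · intro h
          have := congrArg Prod.fst (hF (Finset.mem_coe.2 m3) (Finset.mem_coe.2 m1) h)
          simp [p1, p3] at this
        · simp [tr]
        · rw [mem_base] at hb
          obtain ⟨h1, h2, h3⟩ := hb
          exact triangle he hθ b.1 b.2.1 b.2.2
            (fun i => (q2_le b.2.2 h3 i).trans (h1 i).1)
            (fun i => (w2_le b.2.2 h3 i).trans (h2 i).1)
    have hfin : {t : Finset (Set (ℝ × ℝ)) | t ⊆ ((box e T).image (pr θ)).map ⟨line, line_inj⟩ ∧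
          UnitTriple t}.Finite :=
      Set.Finite.subset ((((box e T).image (pr θ)).map ⟨line, line_inj⟩).powerset.finite_toSet)
        (fun t ht => Finset.mem_coe.2 (Finset.mem_powerset.2 ht.1))
    have := Set.ncard_le_ncard hsub hfin
    rw [Set.ncard_coe_finset, Finset.card_image_of_injOn htr, base_card] at this
    exact this

end Pool.Agent.helper43.UT
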