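import Pool.Agent.helper43.UT.Geo

/-!
# Unit-area triangles without parallels: the construction with `n ^ (7 / 5)` triangles

Slopes in arithmetic progression with difference `c ^ 2` and integer intercepts; the intercepts
are the integer parts of quadratic functions of the slope.
-/

set_option autoImplicit false

namespace Pool.Agent.helper43.UT.Seven

/-- Numerator of the intercepts of the lines of large slope. -/
def N1 (C s : ℤ) : ℤ := 4 * C ^ 2 * s - s ^ 2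

/-- Numerator of the intercepts of the lines of negative slope. -/
def N3 (C r : ℤ) : ℤ := -(4 * C ^ 2 * r) - r ^ 2

theorem N_sum (C t g : ℤ) : N1 C (t + (2 * C * g + g ^ 2)) + N3 C (t - (2 * C * g + g ^ 2)) =
    2 * g * (8 * C ^ 3) - (8 * C * g ^ 3 + 2 * g ^ 4) - 2 * t ^ 2 := by
  unfold N1 N3
  ring

theorem middle {Q P X R1 R3 e T i k : ℤ} (hP : 0 < P) (hQ : Q = 4 * P)
    (h : Q * X = -(R1 + R3 + e + T)) (h1 : i * P ≤ R1) (h1' : R1 < (i + 1) * P)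
    (h3 : k * P ≤ R3) (h3' : R3 < (k + 1) * P) (he : 0 ≤ e) (he' : e ≤ P) :
    (-(T + (i + k) * P)) / Q = X := by
  have hQ0 : 0 < Q := by omega
  have := (Int.ediv_emod_unique (a := -(T + (i + k) * P)) (r := R1 + R3 + e - (i + k) * P)
    (q := X) hQ0).2 ⟨by rw [h]; ring, by linarith, by rw [hQ]; linarith⟩
  exact this.1

/-- The intercepts. -/
noncomputable def icpt (C w i k m : ℤ) : ℝ :=
  if m < 0 then ((N3 C (m + C ^ 2) / (8 * C ^ 3) : ℤ) : ℝ)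
  else if m < w then ((-(2 * m ^ 2 + (i + k) * (2 * C ^ 3)) / (8 * C ^ 3) : ℤ) : ℝ) / 2 - (C : ℝ)
  else ((N1 C (m - C ^ 2) / (8 * C ^ 3) : ℤ) : ℝ)

/-- The line of slope `m`. -/
noncomputable def L (C w i k m : ℤ) : Set (ℝ × ℝ) := line ((m : ℝ), icpt C w i k m)

theorem L_inj {C w i k m m' : ℤ} (h : L C w i k m = L C w i k m') : m = m' := by
  have := (Prod.mk.inj (line_inj h)).1
  exact_mod_cast this

/-- The cell of a numerator. -/
def cell (C N : ℤ) : ℤ := (N % (8 * C ^ 3)) / (2 * C ^ 3)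

theorem cell_mem {C : ℤ} (hC : 0 < C) (N : ℤ) : cell C N ∈ Finset.Ico (0 : ℤ) 4 := by
  have hP : 0 < 2 * C ^ 3 := by positivity
  have hQ : 0 < 8 * C ^ 3 := by positivity
  rw [Finset.mem_Ico]
  unfold cell
  constructor
  · exact Int.ediv_nonneg (Int.emod_nonneg _ hQ.ne') hP.le
  · rw [Int.ediv_lt_iff_lt_mul hP]
    have := Int.emod_lt_of_pos N hQ
    linarith

theorem cell_bounds {C : ℤ} (hC : 0 < C) (N : ℤ) : cell C N * (2 * C ^ 3) ≤ N % (8 * C ^ 3) ∧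
    N % (8 * C ^ 3) < (cell C N + 1) * (2 * C ^ 3) := by
  have hP : 0 < 2 * C ^ 3 := by positivity
  exact ⟨Int.ediv_mul_le _ hP.ne', Int.lt_ediv_add_one_mul_self _ hP⟩

/-- The exact relation between the three intercepts. -/
theorem rel {C w t g : ℤ} (hC : 0 < C) (hg : 0 ≤ g)
    (he : 8 * C * g ^ 3 + 2 * g ^ 4 ≤ 2 * C ^ 3) (ht : 0 ≤ t) (htw : t < w)
    (hw : 4 * w ≤ C ^ 2) :
    icpt C w (cell C (N1 C (t + (2 * C * g + g ^ 2)))) (cell C (N3 C (t - (2 * C * g + g ^ 2))))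
      (t + (C + g) ^ 2) - 2 * icpt C w (cell C (N1 C (t + (2 * C * g + g ^ 2))))
      (cell C (N3 C (t - (2 * C * g + g ^ 2)))) t
      + icpt C w (cell C (N1 C (t + (2 * C * g + g ^ 2))))
      (cell C (N3 C (t - (2 * C * g + g ^ 2)))) (t - (C + g) ^ 2) = 2 * ((C : ℝ) + g) := by
  have hP : 0 < 2 * C ^ 3 := by positivity
  obtain ⟨a1, a2⟩ := cell_bounds hC (N1 C (t + (2 * C * g + g ^ 2)))
  obtain ⟨a3, a4⟩ := cell_bounds hC (N3 C (t - (2 * C * g + g ^ 2)))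
  have hsum := N_sum C t g
  have hd0 : 0 ≤ 2 * C * g + g ^ 2 := by positivity
  have he0 : 0 ≤ 8 * C * g ^ 3 + 2 * g ^ 4 := by positivity
  have hs : t + (C + g) ^ 2 - C ^ 2 = t + (2 * C * g + g ^ 2) := by ring
  have hr : t - (C + g) ^ 2 + C ^ 2 = t - (2 * C * g + g ^ 2) := by ring
  have h1 : ¬ t + (C + g) ^ 2 < 0 := by nlinarith
  have h2 : ¬ t + (C + g) ^ 2 < w := by nlinarith
  have h3 : t - (C + g) ^ 2 < 0 := by nlinarith
  have h4 : ¬ t < 0 := by omega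
  unfold icpt
  rw [if_neg h1, if_neg h2, if_pos h3, if_neg h4, if_pos htw, hs, hr]
  generalize N1 C (t + (2 * C * g + g ^ 2)) = n1 at *
  generalize N3 C (t - (2 * C * g + g ^ 2)) = n3 at *
  have e1 := Int.mul_ediv_add_emod n1 (8 * C ^ 3)
  have e3 := Int.mul_ediv_add_emod n3 (8 * C ^ 3)
  have hmid := middle (Q := 8 * C ^ 3) (P := 2 * C ^ 3)
    (X := n1 / (8 * C ^ 3) + n3 / (8 * C ^ 3) - 2 * g) (R1 := n1 % (8 * C ^ 3))
    (R3 := n3 % (8 * C ^ 3)) (e := 8 * C * g ^ 3 + 2 * g ^ 4) (T := 2 * t ^ 2)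
    (i := cell C n1) (k := cell C n3) hP (by ring) (by linarith) a1 a2 a3 a4 he0 he
  rw [hmid]
  push_cast
  ring

theorem bounds {Z g : ℤ} (hZ : 1 ≤ Z) (hg : 0 ≤ g) (hgZ : g ≤ Z ^ 2) :
    2 * (4 * Z ^ 3) * g + g ^ 2 ≤ 3 * (4 * Z ^ 5) ∧
    8 * (4 * Z ^ 3) * g ^ 3 + 2 * g ^ 4 ≤ 2 * (4 * Z ^ 3) ^ 3 := by
  have g2 : g ^ 2 ≤ Z ^ 4 := by
    calc g ^ 2 ≤ (Z ^ 2) ^ 2 := pow_le_pow_left₀ hg hgZ 2
      _ = Z ^ 4 := by ring
  have g3 : g ^ 3 ≤ Z ^ 6 := by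
    calc g ^ 3 ≤ (Z ^ 2) ^ 3 := pow_le_pow_left₀ hg hgZ 3
      _ = Z ^ 6 := by ring
  have g4 : g ^ 4 ≤ Z ^ 8 := by
    calc g ^ 4 ≤ (Z ^ 2) ^ 4 := pow_le_pow_left₀ hg hgZ 4
      _ = Z ^ 8 := by ring
  have z0 : 0 ≤ Z := by omega
  have z4 : Z ^ 4 ≤ Z ^ 5 := pow_le_pow_right₀ hZ (by norm_num)
  have z8 : Z ^ 8 ≤ Z ^ 9 := pow_le_pow_right₀ hZ (by norm_num)
  have z5 : 0 ≤ Z ^ 5 := pow_nonneg z0 5
  have z9 : 0 ≤ Z ^ 9 := pow_nonneg z0 9
  have z3 : 0 ≤ Z ^ 3 := pow_nonneg z0 3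
  constructor
  · have : Z ^ 3 * g ≤ Z ^ 3 * Z ^ 2 := mul_le_mul_of_nonneg_left hgZ z3
    have e : Z ^ 3 * Z ^ 2 = Z ^ 5 := by ring
    nlinarith
  · have : Z ^ 3 * g ^ 3 ≤ Z ^ 3 * Z ^ 6 := mul_le_mul_of_nonneg_left g3 z3
    have e : Z ^ 3 * Z ^ 6 = Z ^ 9 := by ring
    have e2 : (4 * Z ^ 3) ^ 3 = 64 * Z ^ 9 := by ring
    rw [e2]
    nlinarith

/-- The slopes. -/
noncomputable def slopes (C w : ℤ) : Finset ℤ :=
  Finset.Ico (-C ^ 2 - 3 * w) (-C ^ 2 + w) ∪ Finset.Ico 0 w ∪ Finset.Ico (C ^ 2) (C ^ 2 + 4 * w)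

theorem slopes_card {C w : ℤ} {W : ℕ} (hw : w = W) : (slopes C w).card ≤ 9 * W := by
  unfold slopes
  refine (Finset.card_union_le _ _).trans ?_
  refine (Nat.add_le_add_right (Finset.card_union_le _ _) _).trans ?_
  rw [Int.card_Ico, Int.card_Ico, Int.card_Ico]
  omega

/-- The parameters of the lines. -/
noncomputable def params (C w i k : ℤ) : Finset (ℝ × ℝ) := by
  classical
  exact (slopes C w).image (fun m : ℤ => ((m : ℝ), icpt C w i k m))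

theorem mem_params {C w i k : ℤ} {q : ℝ × ℝ} : q ∈ params C w i k ↔
    ∃ m ∈ slopes C w, ((m : ℝ), icpt C w i k m) = q := by
  classical
  unfold params
  rw [Finset.mem_image]

theorem params_inj (C w i k : ℤ) : Set.InjOn Prod.fst (params C w i k : Set (ℝ × ℝ)) := by
  intro q hq q' hq' h
  obtain ⟨m, _, rfl⟩ := mem_params.1 (Finset.mem_coe.1 hq)
  obtain ⟨m', _, rfl⟩ := mem_params.1 (Finset.mem_coe.1 hq')
  have h' : (m : ℝ) = (m' : ℝ) := h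
  have h2 : m = m' := by exact_mod_cast h'
  rw [h2]

theorem params_card {C w : ℤ} (i k : ℤ) {W : ℕ} (hw : w = W) :
    (params C w i k).card ≤ 9 * W := by
  classical
  unfold params
  exact Finset.card_image_le.trans (slopes_card hw)

end Pool.Agent.helper43.UT.Seven
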