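import Pool.Agent.helper43.UT.Seven

/-!
# Unit-area triangles without parallels: at least `n ^ (7 / 5) / 10 ^ 6` of them
-/

set_option autoImplicit false

namespace Pool.Agent.helper43.UT.Seven

theorem mem_slopes {C w t g : ℤ} (hC : 0 < C) (hg : 0 ≤ g) (hd : 2 * C * g + g ^ 2 ≤ 3 * w)
    (ht : 0 ≤ t) (htw : t < w) :
    t + (C + g) ^ 2 ∈ slopes C w ∧ t ∈ slopes C w ∧ t - (C + g) ^ 2 ∈ slopes C w := by
  have hd0 : 0 ≤ 2 * C * g + g ^ 2 := by positivity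
  have h1 : t + (C + g) ^ 2 = t + (2 * C * g + g ^ 2) + C ^ 2 := by ring
  have h2 : t - (C + g) ^ 2 = t - (2 * C * g + g ^ 2) - C ^ 2 := by ring
  unfold slopes
  simp only [Finset.mem_union, Finset.mem_Ico]
  refine ⟨Or.inr ?_, Or.inl (Or.inr ⟨ht, htw⟩), Or.inl (Or.inl ?_)⟩
  · rw [h1]
    constructor <;> linarith
  · rw [h2]
    constructor <;> linarith

/-- The triangle with the parameters `t` and `g`. -/
noncomputable def tri (C w i k : ℤ) (x : ℤ × ℤ) : Finset (Set (ℝ × ℝ)) := by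
  classical
  exact {L C w i k (x.1 + (C + x.2) ^ 2), L C w i k x.1, L C w i k (x.1 - (C + x.2) ^ 2)}

theorem mem_tri {C w i k : ℤ} {x : ℤ × ℤ} {l : Set (ℝ × ℝ)} : l ∈ tri C w i k x ↔
    l = L C w i k (x.1 + (C + x.2) ^ 2) ∨ l = L C w i k x.1 ∨
      l = L C w i k (x.1 - (C + x.2) ^ 2) := by
  classical
  unfold tri
  simp only [Finset.mem_insert, Finset.mem_singleton]

theorem tri_unit {C w i k t g : ℤ} (hC : 0 < C) (hg : 0 ≤ g)
    (h : icpt C w i k (t + (C + g) ^ 2) - 2 * icpt C w i k t + icpt C w i k (t - (C + g) ^ 2)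
      = 2 * ((C : ℝ) + g)) : UnitTriple (tri C w i k (t, g)) := by
  have hc : 0 < (C + g) ^ 2 := by positivity
  have hcR : 0 < (((C : ℝ) + g)) ^ 2 := by exact_mod_cast hc
  refine ⟨L C w i k (t + (C + g) ^ 2), L C w i k t, L C w i k (t - (C + g) ^ 2),
    fun h' => ?_, fun h' => ?_, fun h' => ?_, ?_, ?_⟩
  · have := L_inj h'
    omega
  · have := L_inj h'
    omega
  · have := L_inj h'
    omega
  · ext l
    rw [Finset.mem_coe, mem_tri]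
    rfl
  · unfold L
    refine unit_lines ?_ ?_ ?_
    · push_cast
      linarith
    · push_cast
      linarith
    · obtain ⟨b1, hb1⟩ : ∃ b, icpt C w i k (t + (C + g) ^ 2) = b := ⟨_, rfl⟩
      obtain ⟨b2, hb2⟩ : ∃ b, icpt C w i k t = b := ⟨_, rfl⟩
      obtain ⟨b3, hb3⟩ : ∃ b, icpt C w i k (t - (C + g) ^ 2) = b := ⟨_, rfl⟩
      rw [hb1, hb2, hb3] at h ⊢
      have hb : b1 = 2 * ((C : ℝ) + g) + 2 * b2 - b3 := by linarith
      subst hb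
      push_cast
      ring

theorem tri_inj {C w i k t g t' g' : ℤ} (hC : 0 < C) (hw : 4 * w ≤ C ^ 2)
    (hg : 0 ≤ g) (ht : 0 ≤ t) (htw : t < w) (hg' : 0 ≤ g') (ht' : 0 ≤ t') (htw' : t' < w)
    (h : tri C w i k (t, g) = tri C w i k (t', g')) : t = t' ∧ g = g' := by
  have k1 : C ^ 2 ≤ (C + g) ^ 2 := by nlinarith
  have k1' : C ^ 2 ≤ (C + g') ^ 2 := by nlinarith
  have m1 : L C w i k t' ∈ tri C w i k (t, g) := by
    rw [h, mem_tri]; exact Or.inr (Or.inl rfl)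
  have m2 : L C w i k (t' + (C + g') ^ 2) ∈ tri C w i k (t, g) := by
    rw [h, mem_tri]; exact Or.inl rfl
  rw [mem_tri] at m1 m2
  simp only at m1 m2
  have e1 : t = t' := by
    rcases m1 with m | m | m
    · have := L_inj m
      omega
    · exact (L_inj m).symm
    · have := L_inj m
      omega
  subst e1
  refine ⟨rfl, ?_⟩
  have e2 : (C + g) ^ 2 = (C + g') ^ 2 := by
    rcases m2 with m | m | m
    · have := L_inj m
      omega
    · have := L_inj m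
      omega
    · have := L_inj m
      omega
  have e3 : (g - g') * (2 * C + g + g') = 0 := by linarith [e2, (by ring :
    (g - g') * (2 * C + g + g') = (C + g) ^ 2 - (C + g') ^ 2)]
  rcases mul_eq_zero.1 e3 with e | e
  · omega
  · omega

theorem construction (z : ℕ) (hz : 1 ≤ z) : ∃ A : Finset (ℝ × ℝ),
    Set.InjOn Prod.fst (A : Set (ℝ × ℝ)) ∧ A.card ≤ 36 * z ^ 5 ∧
      (z : ℝ) ^ 7 / 4 ≤ unitTriangles (A.map ⟨line, line_inj⟩) := by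
  classical
  obtain ⟨Z, hZ⟩ : ∃ Z : ℤ, Z = z := ⟨_, rfl⟩
  have hZ1 : 1 ≤ Z := by omega
  obtain ⟨C, hCd⟩ : ∃ C : ℤ, C = 4 * Z ^ 3 := ⟨_, rfl⟩
  obtain ⟨w, hwd⟩ : ∃ w : ℤ, w = 4 * Z ^ 5 := ⟨_, rfl⟩
  have hC : 0 < C := by rw [hCd]; positivity
  have hw : 4 * w ≤ C ^ 2 := by
    have : Z ^ 5 ≤ Z ^ 6 := pow_le_pow_right₀ hZ1 (by norm_num)
    rw [hwd, hCd]
    calc 4 * (4 * Z ^ 5) = 16 * Z ^ 5 := by ring
      _ ≤ 16 * Z ^ 6 := by linarith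
      _ = (4 * Z ^ 3) ^ 2 := by ring
  obtain ⟨S, hS⟩ : ∃ S : Finset (ℤ × ℤ), S = Finset.Ico 0 w ×ˢ Finset.Ico 0 (Z ^ 2) := ⟨_, rfl⟩
  have hSm : ∀ x, x ∈ S ↔ (0 ≤ x.1 ∧ x.1 < w) ∧ 0 ≤ x.2 ∧ x.2 < Z ^ 2 := by
    intro x
    rw [hS, Finset.mem_product, Finset.mem_Ico, Finset.mem_Ico]
  have hSc : S.card = 4 * z ^ 7 := by
    rw [hS, Finset.card_product, Int.card_Ico, Int.card_Ico, hwd, hZ]
    have h1 : ((4 : ℤ) * (z : ℤ) ^ 5 - 0).toNat = 4 * z ^ 5 := by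
      rw [sub_zero]; exact_mod_cast Int.toNat_natCast (4 * z ^ 5)
    have h2 : ((z : ℤ) ^ 2 - 0).toNat = z ^ 2 := by
      rw [sub_zero]; exact_mod_cast Int.toNat_natCast (z ^ 2)
    rw [h1, h2]
    ring
  obtain ⟨f, hf⟩ : ∃ f : ℤ × ℤ → ℤ × ℤ, f = fun x =>
    (cell C (N1 C (x.1 + (2 * C * x.2 + x.2 ^ 2))),
      cell C (N3 C (x.1 - (2 * C * x.2 + x.2 ^ 2)))) := ⟨_, rfl⟩
  obtain ⟨U, hU⟩ : ∃ U : Finset (ℤ × ℤ), U = Finset.Ico 0 4 ×ˢ Finset.Ico 0 4 := ⟨_, rfl⟩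
  have hfU : ∀ x ∈ S, f x ∈ U := by
    intro x _
    rw [hU, hf, Finset.mem_product]
    exact ⟨cell_mem hC _, cell_mem hC _⟩
  have hUc : U.card = 16 := by
    rw [hU, Finset.card_product, Int.card_Ico]
    rfl
  have hUn : U.Nonempty := by
    rw [← Finset.card_pos, hUc]; norm_num
  obtain ⟨ik, _, hik⟩ := Finset.exists_le_card_fiber_of_nsmul_le_card_of_maps_to
    (b := (z : ℝ) ^ 7 / 4) hfU hUn (by
      rw [hUc, hSc, nsmul_eq_mul]
      push_cast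
      linarith)
  obtain ⟨V, hV⟩ : ∃ V : Finset (ℤ × ℤ), V = S.filter (fun x => f x = ik) := ⟨_, rfl⟩
  rw [← hV] at hik
  have hVm : ∀ x ∈ V, ((0 ≤ x.1 ∧ x.1 < w) ∧ 0 ≤ x.2 ∧ x.2 < Z ^ 2) ∧ f x = ik := by
    intro x hx
    rw [hV, Finset.mem_filter, hSm] at hx
    exact hx
  have hbd : ∀ x ∈ V, 2 * C * x.2 + x.2 ^ 2 ≤ 3 * w ∧
      8 * C * x.2 ^ 3 + 2 * x.2 ^ 4 ≤ 2 * C ^ 3 := by
    intro x hx
    obtain ⟨⟨_, h3, h4⟩, _⟩ := hVm x hx
    rw [hCd, hwd]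
    exact bounds hZ1 h3 h4.le
  refine ⟨params C w ik.1 ik.2, params_inj _ _ _ _, ?_, ?_⟩
  · have := params_card (C := C) (w := w) ik.1 ik.2 (W := 4 * z ^ 5) (by
      rw [hwd, hZ]; push_cast; ring)
    calc _ ≤ 9 * (4 * z ^ 5) := this
      _ = 36 * z ^ 5 := by ring
  · refine hik.trans (Nat.cast_le.2 ?_)
    have hinj : Set.InjOn (tri C w ik.1 ik.2) (V : Set (ℤ × ℤ)) := by
      intro x hx y hy hxy
      obtain ⟨⟨⟨a1, a2⟩, a3, _⟩, _⟩ := hVm x (Finset.mem_coe.1 hx)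
      obtain ⟨⟨⟨b1, b2⟩, b3, _⟩, _⟩ := hVm y (Finset.mem_coe.1 hy)
      obtain ⟨e1, e2⟩ := tri_inj hC hw a3 a1 a2 b3 b1 b2 hxy
      exact Prod.ext e1 e2
    have hsub : ((V.image (tri C w ik.1 ik.2) : Finset (Finset (Set (ℝ × ℝ)))) : Set _) ⊆
        {t : Finset (Set (ℝ × ℝ)) |
          t ⊆ (params C w ik.1 ik.2).map ⟨line, line_inj⟩ ∧ UnitTriple t} := by
      intro T hT
      obtain ⟨x, hx, rfl⟩ := Finset.mem_image.1 (Finset.mem_coe.1 hT)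
      obtain ⟨⟨⟨a1, a2⟩, a3, _⟩, a5⟩ := hVm x hx
      obtain ⟨d1, d2⟩ := hbd x hx
      obtain ⟨c1, c2, c3⟩ := mem_slopes hC a3 d1 a1 a2
      refine ⟨?_, ?_⟩
      · intro l hl
        rw [Finset.mem_map]
        rcases mem_tri.1 hl with h | h | h
        · exact ⟨_, mem_params.2 ⟨_, c1, rfl⟩, h.symm⟩
        · exact ⟨_, mem_params.2 ⟨_, c2, rfl⟩, h.symm⟩
        · exact ⟨_, mem_params.2 ⟨_, c3, rfl⟩, h.symm⟩
      · have hr := rel hC a3 d2 a1 a2 hw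
        rw [hf] at a5
        have i1 := (Prod.mk.inj a5).1
        have i2 := (Prod.mk.inj a5).2
        rw [i1, i2] at hr
        exact tri_unit hC a3 hr
    have hfin : {t : Finset (Set (ℝ × ℝ)) |
        t ⊆ (params C w ik.1 ik.2).map ⟨line, line_inj⟩ ∧ UnitTriple t}.Finite :=
      Set.Finite.subset (((params C w ik.1 ik.2).map ⟨line, line_inj⟩).powerset.finite_toSet)
        (fun t ht => Finset.mem_coe.2 (Finset.mem_powerset.2 ht.1))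
    have := Set.ncard_le_ncard hsub hfin
    rw [Set.ncard_coe_finset, Finset.card_image_of_injOn hinj] at this
    exact this

theorem pad_tri {A : Finset (ℝ × ℝ)} (hA : Set.InjOn Prod.fst (A : Set (ℝ × ℝ))) {n : ℕ}
    {N : ℝ} (hn : A.card ≤ n) (hN : N ≤ unitTriangles (A.map ⟨line, line_inj⟩)) :
    ∃ L : Finset (Set (ℝ × ℝ)), NoParallels L ∧ L.card = n ∧ N ≤ unitTriangles L := by
  obtain ⟨B, hAB, hB, hBn⟩ := pad hA hn
  refine ⟨B.map ⟨line, line_inj⟩, noParallels hB, by rw [lines_card, hBn], hN.trans ?_⟩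
  exact Nat.cast_le.2 (unitTriangles_mono (Finset.map_subset_map.2 hAB))

theorem three_lines : ∃ A : Finset (ℝ × ℝ), Set.InjOn Prod.fst (A : Set (ℝ × ℝ)) ∧
    A.card = 3 ∧ 1 ≤ unitTriangles (A.map ⟨line, line_inj⟩) := by
  classical
  have ne1 : ((2 : ℝ), (2 : ℝ)) ≠ (1, 0) := by
    intro h; have := congrArg Prod.fst h; norm_num at this
  have ne2 : ((1 : ℝ), (0 : ℝ)) ≠ (0, 0) := by
    intro h; have := congrArg Prod.fst h; norm_num at this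
  have ne3 : ((0 : ℝ), (0 : ℝ)) ≠ (2, 2) := by
    intro h; have := congrArg Prod.fst h; norm_num at this
  obtain ⟨A, hA⟩ : ∃ A : Finset (ℝ × ℝ), A = {(2, 2), (1, 0), (0, 0)} := ⟨_, rfl⟩
  have hmem : ∀ x : ℝ × ℝ, x ∈ A ↔ x = (2, 2) ∨ x = (1, 0) ∨ x = (0, 0) := by
    intro x; rw [hA]; simp
  refine ⟨A, ?_, ?_, ?_⟩
  · intro x hx y hy h
    rw [Finset.mem_coe, hmem] at hx hy
    rcases hx with rfl | rfl | rfl <;> rcases hy with rfl | rfl | rfl <;> first | rfl | norm_num at h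
  · rw [hA, Finset.card_eq_three]
    exact ⟨_, _, _, ne1, ne3.symm, ne2, rfl⟩
  · obtain ⟨P, Q, R, h1, h2, h3, h4⟩ := unit_lines (m₁ := 2) (m₂ := 1) (m₃ := 0) (b₁ := 2)
      (b₂ := 0) (b₃ := 0) (by norm_num) (by norm_num) (by norm_num)
    have hU : UnitTriple (A.map ⟨line, line_inj⟩) := by
      refine ⟨line (2, 2), line (1, 0), line (0, 0), fun h => ne1 (line_inj h),
        fun h => ne2 (line_inj h), fun h => ne3 (line_inj h), ?_, P, Q, R, h1, h2, h3, h4⟩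
      rw [hA]
      simp [Finset.map_insert]
    have hfin : {t : Finset (Set (ℝ × ℝ)) | t ⊆ A.map ⟨line, line_inj⟩ ∧ UnitTriple t}.Finite :=
      Set.Finite.subset ((A.map ⟨line, line_inj⟩).powerset.finite_toSet)
        (fun t ht => Finset.mem_coe.2 (Finset.mem_powerset.2 ht.1))
    exact (Set.ncard_pos hfin).2 ⟨_, Finset.Subset.refl _, hU⟩

theorem greatest_z {n : ℕ} (hn : 36 ≤ n) :
    ∃ z : ℕ, 1 ≤ z ∧ 36 * z ^ 5 ≤ n ∧ n ≤ (5 * z) ^ 5 := by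
  classical
  obtain ⟨T, hT⟩ : ∃ T, T = Nat.findGreatest (fun T => 36 * T ^ 5 ≤ n) n := ⟨_, rfl⟩
  have h1 : 36 * 1 ^ 5 ≤ n := by simpa using hn
  have hn1 : 1 ≤ n := by omega
  have hT1 : 1 ≤ T := by rw [hT]; exact Nat.le_findGreatest hn1 h1
  have hT2 : 36 * T ^ 5 ≤ n := by
    rw [hT]
    exact Nat.findGreatest_spec (P := fun T => 36 * T ^ 5 ≤ n) hn1 h1
  refine ⟨T, hT1, hT2, ?_⟩
  by_contra hcon
  rw [not_le] at hcon
  have h4 : 36 * (T + 1) ^ 5 ≤ (5 * T) ^ 5 := by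
    calc 36 * (T + 1) ^ 5 ≤ 36 * (2 * T) ^ 5 :=
          Nat.mul_le_mul_left _ (Nat.pow_le_pow_left (by omega) _)
      _ = 1152 * T ^ 5 := by ring
      _ ≤ 3125 * T ^ 5 := Nat.mul_le_mul_right _ (by norm_num)
      _ = (5 * T) ^ 5 := by ring
  have h3 : T + 1 ≤ (T + 1) ^ 5 := Nat.le_self_pow (by omega) _
  have := Nat.findGreatest_is_greatest (P := fun T => 36 * T ^ 5 ≤ n) (n := n) (k := T + 1)
    (by rw [← hT]; omega) (by omega)
  omega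

theorem seven_fifths (n : ℕ) (hn : 3 ≤ n) : ∃ L : Finset (Set (ℝ × ℝ)),
    NoParallels L ∧ L.card = n ∧ (n : ℝ) ^ ((7 : ℝ) / 5) / 10 ^ 6 ≤ unitTriangles L := by
  have key : ∀ x : ℝ, 0 ≤ x → (n : ℝ) ≤ x ^ 5 → (n : ℝ) ^ ((7 : ℝ) / 5) ≤ x ^ 7 := by
    intro x hx h
    calc (n : ℝ) ^ ((7 : ℝ) / 5) ≤ (x ^ 5) ^ ((7 : ℝ) / 5) :=
          Real.rpow_le_rpow (Nat.cast_nonneg n) h (by norm_num)
      _ = (x ^ ((5 : ℕ) : ℝ)) ^ ((7 : ℝ) / 5) := by rw [Real.rpow_natCast]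
      _ = x ^ ((7 : ℕ) : ℝ) := by rw [← Real.rpow_mul hx]; norm_num
      _ = x ^ 7 := Real.rpow_natCast _ _
  by_cases h9 : n < 36
  · obtain ⟨A, hA, hA3, hA1⟩ := three_lines
    refine pad_tri hA (by omega) (le_trans ?_ (Nat.one_le_cast.2 hA1))
    have h1 := key 3 (by norm_num) (by
      have : (n : ℝ) ≤ 36 := by exact_mod_cast h9.le
      linarith [this, (by norm_num : (3 : ℝ) ^ 5 = 243)])
    rw [div_le_one (by norm_num)]
    refine h1.trans ?_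
    norm_num
  · rw [not_lt] at h9
    obtain ⟨z, hz1, hz2, hz3⟩ := greatest_z h9
    obtain ⟨A, hA, hAc, hAt⟩ := construction z hz1
    refine pad_tri hA (hAc.trans hz2) (le_trans ?_ hAt)
    have h1 := key (5 * z) (by positivity) (by exact_mod_cast hz3)
    have h2 : (0 : ℝ) ≤ (z : ℝ) ^ 7 := by positivity
    rw [div_le_iff₀ (by norm_num)]
    calc (n : ℝ) ^ ((7 : ℝ) / 5) ≤ (5 * z : ℝ) ^ 7 := h1
      _ = 78125 * (z : ℝ) ^ 7 := by ring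
      _ ≤ (z : ℝ) ^ 7 / 4 * 10 ^ 6 := by linarith

end Pool.Agent.helper43.UT.Seven
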