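import Pool.Agent.helper43.UT.Geo

/-!
# Unit-area triangles without parallels: `n ^ (4 / 3) / 256` triangles
-/

set_option autoImplicit false

namespace Pool.Agent.helper43.UT

/-- The vertical axis. -/
def axis : Set (ℝ × ℝ) := {p | p.1 = 0}

theorem isLine_axis : IsLine axis := by
  refine ⟨1, 0, 0, Or.inl one_ne_zero, ?_⟩
  ext p
  simp [axis]

theorem axis_ne (q : ℝ × ℝ) : axis ≠ line q := by
  intro h
  have h1 : ((0 : ℝ), q.2 + 1) ∈ axis := rfl
  rw [h, mem_line] at h1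
  simp at h1

theorem axis_meet (q : ℝ × ℝ) : (axis ∩ line q).Nonempty :=
  ⟨(0, q.2), rfl, by rw [mem_line]; simp⟩

/-- Triangles with one side on the axis. -/
theorem unit_axis {q q' : ℝ × ℝ} (hm : 0 < q'.1 - q.1) (h : (q'.2 - q.2) ^ 2 = 2 * (q'.1 - q.1)) :
    ∃ P Q R : ℝ × ℝ, P ∈ line q ∩ line q' ∧ Q ∈ line q' ∩ axis ∧ R ∈ axis ∩ line q ∧
      area P Q R = 1 := by
  have hm' : q'.1 - q.1 ≠ 0 := hm.ne'
  refine ⟨(-(q'.2 - q.2) / (q'.1 - q.1), q.1 * (-(q'.2 - q.2) / (q'.1 - q.1)) + q.2),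
    (0, q'.2), (0, q.2), ⟨?_, ?_⟩, ⟨?_, rfl⟩, ⟨rfl, ?_⟩, ?_⟩
  · rw [mem_line]
  · rw [mem_line]
    simp only
    field_simp
    ring
  · rw [mem_line]; simp
  · rw [mem_line]; simp
  · unfold area
    simp only
    have hc : (0 - -(q'.2 - q.2) / (q'.1 - q.1)) * (q.2 - (q.1 * (-(q'.2 - q.2) / (q'.1 - q.1))
        + q.2)) - (0 - -(q'.2 - q.2) / (q'.1 - q.1)) * (q'.2 - (q.1 * (-(q'.2 - q.2) /
        (q'.1 - q.1)) + q.2)) = -((q'.2 - q.2) ^ 2 / (q'.1 - q.1)) := by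
      field_simp
      ring
    rw [hc, h, mul_div_assoc, div_self hm', abs_neg]
    norm_num

/-- The arrangement consisting of the axis and of the lines with parameters in `A`. -/
noncomputable def arr (A : Finset (ℝ × ℝ)) : Finset (Set (ℝ × ℝ)) :=
  Finset.cons axis (A.map ⟨line, line_inj⟩) (by
    rw [Finset.mem_map]
    rintro ⟨q, _, h⟩
    exact axis_ne q h.symm)

theorem arr_card (A : Finset (ℝ × ℝ)) : (arr A).card = A.card + 1 := by
  unfold arr
  rw [Finset.card_cons, Finset.card_map]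

theorem mem_arr {A : Finset (ℝ × ℝ)} {l : Set (ℝ × ℝ)} :
    l ∈ arr A ↔ l = axis ∨ ∃ q ∈ A, line q = l := by
  unfold arr
  rw [Finset.mem_cons, Finset.mem_map]
  rfl

theorem arr_noParallels {A : Finset (ℝ × ℝ)} (hA : Set.InjOn Prod.fst (A : Set (ℝ × ℝ))) :
    NoParallels (arr A) := by
  constructor
  · intro l hl
    rcases mem_arr.1 hl with rfl | ⟨q, _, rfl⟩
    · exact isLine_axis
    · exact isLine_line q
  · intro l hl l' hl' hne
    rcases mem_arr.1 hl with rfl | ⟨q, hq, rfl⟩ <;> rcases mem_arr.1 hl' with rfl | ⟨q', hq', rfl⟩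
    · exact absurd rfl hne
    · exact axis_meet q'
    · rw [Set.inter_comm]; exact axis_meet q
    · refine meet (fun h => hne ?_)
      rw [hA (Finset.mem_coe.2 hq) (Finset.mem_coe.2 hq') h]

theorem arr_mono {A B : Finset (ℝ × ℝ)} (h : A ⊆ B) :
    unitTriangles (arr A) ≤ unitTriangles (arr B) := by
  refine unitTriangles_mono (fun l hl => ?_)
  rcases mem_arr.1 hl with h1 | ⟨q, hq, h1⟩
  · exact mem_arr.2 (Or.inl h1)
  · exact mem_arr.2 (Or.inr ⟨q, h hq, h1⟩)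

/-- first class of lines -/
noncomputable def c0 (x : ℕ × ℕ) : ℝ × ℝ := (((x.1 : ℝ) + Real.sqrt 2 * x.2) / 2, (x.2 : ℝ))
/-- second class of lines -/
noncomputable def c1 (x : ℕ × ℕ) : ℝ × ℝ :=
  (((x.1 : ℝ) + Real.sqrt 2 * x.2) / 2 + 1 / 4, (x.2 : ℝ) + Real.sqrt 2 / 2)

theorem sqrt_indep {a b : ℤ} (h : (a : ℝ) + Real.sqrt 2 * b = 0) : a = 0 ∧ b = 0 := by
  have hb : b = 0 := by
    by_contra hb
    have hb' : (b : ℝ) ≠ 0 := by exact_mod_cast hb
    have h2 : Real.sqrt 2 = ((-a / b : ℚ) : ℝ) := by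
      push_cast
      field_simp
      linarith
    exact irrational_sqrt_two ⟨_, h2.symm⟩
  subst hb
  simp at h
  exact ⟨h, rfl⟩

theorem c0_inj {x y : ℕ × ℕ} (h : (c0 x).1 = (c0 y).1) : x = y := by
  unfold c0 at h
  simp only at h
  have h1 := sqrt_indep (a := (x.1 : ℤ) - y.1) (b := (x.2 : ℤ) - y.2) (by push_cast; linarith)
  exact Prod.ext (by omega) (by omega)

theorem c1_inj {x y : ℕ × ℕ} (h : (c1 x).1 = (c1 y).1) : x = y := by
  unfold c1 at h
  simp only at h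
  have h1 := sqrt_indep (a := (x.1 : ℤ) - y.1) (b := (x.2 : ℤ) - y.2) (by push_cast; linarith)
  exact Prod.ext (by omega) (by omega)

theorem c01 {x y : ℕ × ℕ} : (c0 x).1 ≠ (c1 y).1 := by
  intro h
  unfold c0 c1 at h
  simp only at h
  have h1 := sqrt_indep (a := 2 * ((x.1 : ℤ) - y.1) - 1) (b := 2 * ((x.2 : ℤ) - y.2))
    (by push_cast; linarith)
  omega

theorem rel (u v k : ℕ) : 0 < (c1 (u + k ^ 2, v + k)).1 - (c0 (u, v)).1 ∧
    ((c1 (u + k ^ 2, v + k)).2 - (c0 (u, v)).2) ^ 2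
      = 2 * ((c1 (u + k ^ 2, v + k)).1 - (c0 (u, v)).1) := by
  unfold c0 c1
  simp only
  have h2 : Real.sqrt 2 ^ 2 = 2 := Real.sq_sqrt (by norm_num)
  constructor
  · push_cast
    have : 0 ≤ Real.sqrt 2 * (k : ℝ) := by positivity
    nlinarith [sq_nonneg (k : ℝ)]
  · push_cast
    ring_nf
    rw [h2]
    ring

/-- the parameters -/
noncomputable def par (T : ℕ) : Finset (ℝ × ℝ) := by
  classical
  exact (Finset.range (2 * T ^ 2) ×ˢ Finset.range (2 * T)).image c0 ∪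
    (Finset.range (2 * T ^ 2) ×ˢ Finset.range (2 * T)).image c1

theorem mem_par {T : ℕ} {q : ℝ × ℝ} : q ∈ par T ↔
    (∃ x : ℕ × ℕ, x.1 < 2 * T ^ 2 ∧ x.2 < 2 * T ∧ c0 x = q) ∨
    ∃ x : ℕ × ℕ, x.1 < 2 * T ^ 2 ∧ x.2 < 2 * T ∧ c1 x = q := by
  classical
  unfold par
  simp only [Finset.mem_union, Finset.mem_image, Finset.mem_product, Finset.mem_range, and_assoc]

theorem par_inj (T : ℕ) : Set.InjOn Prod.fst (par T : Set (ℝ × ℝ)) := by
  intro q hq q' hq' h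
  rcases mem_par.1 (Finset.mem_coe.1 hq) with ⟨x, _, _, rfl⟩ | ⟨x, _, _, rfl⟩ <;>
    rcases mem_par.1 (Finset.mem_coe.1 hq') with ⟨y, _, _, rfl⟩ | ⟨y, _, _, rfl⟩
  · rw [c0_inj h]
  · exact absurd h c01
  · exact absurd h.symm c01
  · rw [c1_inj h]

theorem par_card (T : ℕ) : (par T).card ≤ 8 * T ^ 3 := by
  classical
  unfold par
  refine (Finset.card_union_le _ _).trans ?_
  have h1 := Finset.card_image_le (s := Finset.range (2 * T ^ 2) ×ˢ Finset.range (2 * T)) (f := c0)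
  have h2 := Finset.card_image_le (s := Finset.range (2 * T ^ 2) ×ˢ Finset.range (2 * T)) (f := c1)
  rw [Finset.card_product, Finset.card_range, Finset.card_range] at h1 h2
  calc _ ≤ 2 * T ^ 2 * (2 * T) + 2 * T ^ 2 * (2 * T) := add_le_add h1 h2
    _ = 8 * T ^ 3 := by ring

theorem par_tri (T : ℕ) : T ^ 4 ≤ unitTriangles (arr (par T)) := by
  classical
  let S : Finset (ℕ × ℕ × ℕ) := Finset.range (T ^ 2) ×ˢ (Finset.range T ×ˢ Finset.range T)
  have hS : S.card = T ^ 4 := by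
    simp only [S, Finset.card_product, Finset.card_range]
    ring
  let tr : ℕ × ℕ × ℕ → Finset (Set (ℝ × ℝ)) := fun s =>
    {axis, line (c0 (s.1, s.2.1)), line (c1 (s.1 + s.2.2 ^ 2, s.2.1 + s.2.2))}
  have hmem : ∀ s ∈ S, c0 (s.1, s.2.1) ∈ par T ∧
      c1 (s.1 + s.2.2 ^ 2, s.2.1 + s.2.2) ∈ par T := by
    intro s hs
    simp only [S, Finset.mem_product, Finset.mem_range] at hs
    obtain ⟨h1, h2, h3⟩ := hs
    have h4 : s.2.2 ^ 2 ≤ T ^ 2 := Nat.pow_le_pow_left h3.le 2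
    refine ⟨mem_par.2 (Or.inl ⟨_, ?_, ?_, rfl⟩), mem_par.2 (Or.inr ⟨_, ?_, ?_, rfl⟩)⟩ <;>
      simp only <;> omega
  have hinj : Set.InjOn tr (S : Set (ℕ × ℕ × ℕ)) := by
    intro s _ s' _ h
    have g0 : line (c0 (s.1, s.2.1)) ∈ tr s' := by rw [← h]; simp [tr]
    have g1 : line (c1 (s.1 + s.2.2 ^ 2, s.2.1 + s.2.2)) ∈ tr s' := by rw [← h]; simp [tr]
    simp only [tr, Finset.mem_insert, Finset.mem_singleton] at g0 g1
    have a0 : (s.1, s.2.1) = (s'.1, s'.2.1) := by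
      rcases g0 with g0 | g0 | g0
      · exact absurd g0.symm (axis_ne _)
      · exact c0_inj (congrArg Prod.fst (line_inj g0))
      · exact absurd (congrArg Prod.fst (line_inj g0)) c01
    have a1 : (s.1 + s.2.2 ^ 2, s.2.1 + s.2.2) = (s'.1 + s'.2.2 ^ 2, s'.2.1 + s'.2.2) := by
      rcases g1 with g1 | g1 | g1
      · exact absurd g1.symm (axis_ne _)
      · exact absurd (congrArg Prod.fst (line_inj g1)).symm c01
      · exact c1_inj (congrArg Prod.fst (line_inj g1))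
    have b1 : s.1 = s'.1 := (Prod.mk.inj a0).1
    have b2 : s.2.1 = s'.2.1 := (Prod.mk.inj a0).2
    have b3 : s.2.1 + s.2.2 = s'.2.1 + s'.2.2 := (Prod.mk.inj a1).2
    exact Prod.ext b1 (Prod.ext b2 (by omega))
  have hsub : ((S.image tr : Finset (Finset (Set (ℝ × ℝ)))) : Set _) ⊆
      {t : Finset (Set (ℝ × ℝ)) | t ⊆ arr (par T) ∧ UnitTriple t} := by
    intro t ht
    obtain ⟨s, hs, rfl⟩ := Finset.mem_image.1 (Finset.mem_coe.1 ht)
    obtain ⟨m0, m1⟩ := hmem s hs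
    refine ⟨?_, ?_⟩
    · intro l hl
      simp only [tr, Finset.mem_insert, Finset.mem_singleton] at hl
      rcases hl with rfl | rfl | rfl
      · exact mem_arr.2 (Or.inl rfl)
      · exact mem_arr.2 (Or.inr ⟨_, m0, rfl⟩)
      · exact mem_arr.2 (Or.inr ⟨_, m1, rfl⟩)
    · obtain ⟨r1, r2⟩ := rel s.1 s.2.1 s.2.2
      refine ⟨axis, line (c0 (s.1, s.2.1)), line (c1 (s.1 + s.2.2 ^ 2, s.2.1 + s.2.2)),
        axis_ne _, fun h => c01 (congrArg Prod.fst (line_inj h)), (axis_ne _).symm, ?_,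
        unit_axis r1 r2⟩
      simp [tr]
  have hfin : {t : Finset (Set (ℝ × ℝ)) | t ⊆ arr (par T) ∧ UnitTriple t}.Finite :=
    Set.Finite.subset ((arr (par T)).powerset.finite_toSet)
      (fun t ht => Finset.mem_coe.2 (Finset.mem_powerset.2 ht.1))
  have := Set.ncard_le_ncard hsub hfin
  rw [Set.ncard_coe_finset, Finset.card_image_of_injOn hinj, hS] at this
  exact this

end Pool.Agent.helper43.UT
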