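import Pool.Agent.helper43.UT.Simple

/-!
# Unit-area triangles without parallels: at least `n ^ (4 / 3) / 256` of them
-/

set_option autoImplicit false

namespace Pool.Agent.helper43.UT

theorem pad_arr {A : Finset (ℝ × ℝ)} (hA : Set.InjOn Prod.fst (A : Set (ℝ × ℝ))) {n N : ℕ}
    (hn : A.card + 1 ≤ n) (hN : N ≤ unitTriangles (arr A)) :
    ∃ L : Finset (Set (ℝ × ℝ)), NoParallels L ∧ L.card = n ∧ N ≤ unitTriangles L := by
  obtain ⟨B, hAB, hB, hBn⟩ := pad hA (n := n - 1) (by omega)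
  refine ⟨arr B, arr_noParallels hB, by rw [arr_card, hBn]; omega, hN.trans (arr_mono hAB)⟩

theorem two_lines : ∃ A : Finset (ℝ × ℝ), Set.InjOn Prod.fst (A : Set (ℝ × ℝ)) ∧
    A.card ≤ 2 ∧ 1 ≤ unitTriangles (arr A) := by
  classical
  have hne : ((0 : ℝ), (0 : ℝ)) ≠ (2, 2) := by
    intro h; have := congrArg Prod.fst h; norm_num at this
  obtain ⟨A, hA⟩ : ∃ A : Finset (ℝ × ℝ), A = {(0, 0), (2, 2)} := ⟨_, rfl⟩
  have hmem : ∀ x : ℝ × ℝ, x ∈ A ↔ x = (0, 0) ∨ x = (2, 2) := by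
    intro x; rw [hA]; simp
  refine ⟨A, ?_, ?_, ?_⟩
  · intro x hx y hy h
    rw [Finset.mem_coe, hmem] at hx hy
    rcases hx with rfl | rfl <;> rcases hy with rfl | rfl <;> first | rfl | norm_num at h
  · rw [hA]
    exact Finset.card_le_two
  · have hU : UnitTriple {axis, line (0, 0), line (2, 2)} := by
      refine ⟨axis, line (0, 0), line (2, 2), axis_ne _, fun h => hne (line_inj h),
        (axis_ne _).symm, by simp, unit_axis (by norm_num) (by norm_num)⟩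
    have hsub : ({axis, line (0, 0), line (2, 2)} : Finset (Set (ℝ × ℝ))) ⊆ arr A := by
      intro l hl
      simp only [Finset.mem_insert, Finset.mem_singleton] at hl
      rcases hl with rfl | rfl | rfl
      · exact mem_arr.2 (Or.inl rfl)
      · exact mem_arr.2 (Or.inr ⟨_, (hmem _).2 (Or.inl rfl), rfl⟩)
      · exact mem_arr.2 (Or.inr ⟨_, (hmem _).2 (Or.inr rfl), rfl⟩)
    have hfin : {t : Finset (Set (ℝ × ℝ)) | t ⊆ arr A ∧ UnitTriple t}.Finite :=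
      Set.Finite.subset ((arr A).powerset.finite_toSet)
        (fun t ht => Finset.mem_coe.2 (Finset.mem_powerset.2 ht.1))
    exact (Set.ncard_pos hfin).2 ⟨_, hsub, hU⟩

theorem greatest_T {n : ℕ} (hn : 9 ≤ n) : ∃ T : ℕ, 1 ≤ T ∧ 8 * T ^ 3 + 1 ≤ n ∧ n ≤ 64 * T ^ 3 := by
  classical
  obtain ⟨T, hT⟩ : ∃ T, T = Nat.findGreatest (fun T => 8 * T ^ 3 + 1 ≤ n) n := ⟨_, rfl⟩
  have h1 : 8 * 1 ^ 3 + 1 ≤ n := by simpa using hn
  have hn1 : 1 ≤ n := by omega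
  have hT1 : 1 ≤ T := by rw [hT]; exact Nat.le_findGreatest hn1 h1
  have hT2 : 8 * T ^ 3 + 1 ≤ n := by
    rw [hT]
    exact Nat.findGreatest_spec (P := fun T => 8 * T ^ 3 + 1 ≤ n) hn1 h1
  refine ⟨T, hT1, hT2, ?_⟩
  by_contra hcon
  rw [not_le] at hcon
  have h4 : 8 * (T + 1) ^ 3 ≤ 64 * T ^ 3 := by
    calc 8 * (T + 1) ^ 3 ≤ 8 * (2 * T) ^ 3 :=
          Nat.mul_le_mul_left _ (Nat.pow_le_pow_left (by omega) _)
      _ = 64 * T ^ 3 := by ring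
  have h3 : T + 1 ≤ (T + 1) ^ 3 := Nat.le_self_pow (by omega) _
  have := Nat.findGreatest_is_greatest (P := fun T => 8 * T ^ 3 + 1 ≤ n) (n := n) (k := T + 1)
    (by rw [← hT]; omega) (by omega)
  omega

theorem four_thirds (n : ℕ) (hn : 3 ≤ n) : ∃ L : Finset (Set (ℝ × ℝ)),
    NoParallels L ∧ L.card = n ∧ (n : ℝ) ^ ((4 : ℝ) / 3) / 256 ≤ unitTriangles L := by
  by_cases h9 : n < 9
  · obtain ⟨A, hA, hA2, hA1⟩ := two_lines
    obtain ⟨L, hL, hLn, hL1⟩ := pad_arr hA (n := n) (by omega) hA1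
    refine ⟨L, hL, hLn, le_trans ?_ (Nat.one_le_cast.2 hL1)⟩
    have h1 : (n : ℝ) ^ ((4 : ℝ) / 3) ≤ (27 : ℝ) ^ ((4 : ℝ) / 3) :=
      Real.rpow_le_rpow (Nat.cast_nonneg n) (by exact_mod_cast (by omega : n ≤ 27)) (by norm_num)
    have h2 : (27 : ℝ) ^ ((4 : ℝ) / 3) = 81 := by
      rw [show (27 : ℝ) = 3 ^ (3 : ℝ) by norm_num, ← Real.rpow_mul (by norm_num)]
      norm_num
    rw [div_le_one (by norm_num)]
    linarith
  · rw [not_lt] at h9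
    obtain ⟨T, _, hT2, hT3⟩ := greatest_T h9
    obtain ⟨L, hL, hLn, hLt⟩ := pad_arr (par_inj T) (n := n)
      (le_trans (Nat.add_le_add_right (par_card T) 1) hT2) (par_tri T)
    refine ⟨L, hL, hLn, le_trans ?_ (Nat.cast_le.2 hLt)⟩
    have h3 : (n : ℝ) ≤ (4 * T : ℝ) ^ (3 : ℝ) := by
      have : (n : ℝ) ≤ 64 * (T : ℝ) ^ 3 := by exact_mod_cast hT3
      calc (n : ℝ) ≤ 64 * (T : ℝ) ^ 3 := this
        _ = (4 * T : ℝ) ^ 3 := by ring
        _ = _ := by rw [← Real.rpow_natCast]; norm_num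
    have h4 : (n : ℝ) ^ ((4 : ℝ) / 3) ≤ (4 * T : ℝ) ^ 4 := by
      calc (n : ℝ) ^ ((4 : ℝ) / 3) ≤ ((4 * T : ℝ) ^ (3 : ℝ)) ^ ((4 : ℝ) / 3) :=
            Real.rpow_le_rpow (Nat.cast_nonneg n) h3 (by norm_num)
        _ = (4 * T : ℝ) ^ ((4 : ℕ) : ℝ) := by
            rw [← Real.rpow_mul (by positivity)]; norm_num
        _ = _ := Real.rpow_natCast _ _
    rw [div_le_iff₀ (by norm_num)]
    calc (n : ℝ) ^ ((4 : ℝ) / 3) ≤ (4 * T : ℝ) ^ 4 := h4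
      _ = ((T ^ 4 : ℕ) : ℝ) * 256 := by push_cast; ring

end Pool.Agent.helper43.UT
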